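import Mathlib
import Pool.Agent.H365R4.Torus2
import Pool.Agent.H365R4.Split

set_option autoImplicit false

open scoped Manifold ContDiff Topology
open Set Filter

noncomputable section

namespace Pool.Agent.H365R5

open Pool.Agent.H365R3 Pool.Agent.H365R4

/-! ### Lifting maps of the torus to the plane -/

theorem lift_circle (f : V2 → Circle) (hf : Continuous f) :
    ∃ F : V2 → ℝ, Continuous F ∧ ∀ z, Circle.exp (F z) = f z := by
  obtain ⟨θ, hθ⟩ : ∃ θ : ℝ, Circle.exp θ = f 0 := ⟨Complex.arg (f 0 : ℂ), Circle.exp_arg _⟩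
  obtain ⟨F, ⟨-, hF⟩, -⟩ := Circle.isCoveringMap_exp.existsUnique_continuousMap_lifts
    (⟨f, hf⟩ : C(V2, Circle)) (0 : V2) θ hθ
  exact ⟨F, F.continuous, fun z => congrFun hF z⟩

theorem exists_lift (G : T2 → T2) (hG : Continuous G) :
    ∃ g : V2 → V2, Continuous g ∧ ∀ z, E2 (g z) = G (E2 z) := by
  obtain ⟨a, ha, ha'⟩ := lift_circle (fun z => (G (E2 z)).1)
    (continuous_fst.comp (hG.comp E2_cont))
  obtain ⟨b, hb, hb'⟩ := lift_circle (fun z => (G (E2 z)).2)
    (continuous_snd.comp (hG.comp E2_cont))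
  refine ⟨fun z => (a z / (2 * Real.pi), b z / (2 * Real.pi)),
    (ha.div_const _).prodMk (hb.div_const _), fun z => ?_⟩
  refine Prod.ext ?_ ?_
  · change Circle.exp (2 * Real.pi * (a z / (2 * Real.pi))) = _
    rw [mul_div_cancel₀ _ tp_ne, ha']
  · change Circle.exp (2 * Real.pi * (b z / (2 * Real.pi))) = _
    rw [mul_div_cancel₀ _ tp_ne, hb']

theorem norm_ofZ_lt {k : ℤ × ℤ} (h : ‖ofZ k‖ < 1) : k = 0 := by
  have h1 : |(k.1 : ℝ)| < 1 := (norm_fst_le (ofZ k)).trans_lt h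
  have h2 : |(k.2 : ℝ)| < 1 := (norm_snd_le (ofZ k)).trans_lt h
  refine Prod.ext ?_ ?_
  · have : |k.1| < 1 := by exact_mod_cast h1
    exact Int.abs_lt_one_iff.1 this
  · have : |k.2| < 1 := by exact_mod_cast h2
    exact Int.abs_lt_one_iff.1 this

theorem ofZ_add (k l : ℤ × ℤ) : ofZ (k + l) = ofZ k + ofZ l := by
  simp [ofZ]

theorem ofZ_sub (k l : ℤ × ℤ) : ofZ (k - l) = ofZ k - ofZ l := by
  simp [ofZ]

theorem ofZ_zero : ofZ 0 = 0 := by simp [ofZ]

theorem ofZ_inj {k l : ℤ × ℤ} (h : ofZ k = ofZ l) : k = l := by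
  have h1 : ofZ (k - l) = 0 := by rw [ofZ_sub, h, sub_self]
  have h2 : k - l = 0 := norm_ofZ_lt (by rw [h1]; simp)
  exact sub_eq_zero.1 h2

/-- A continuous map of the plane with integer values is constant. -/
theorem const_of_ofZ (u : V2 → V2) (hu : Continuous u) (h : ∀ z, ∃ k, u z = ofZ k) :
    ∃ k, ∀ z, u z = ofZ k := by
  choose k hk using h
  have hlc : IsLocallyConstant k := by
    rw [IsLocallyConstant.iff_eventually_eq]
    intro z
    have h1 : ∀ᶠ y in 𝓝 z, dist (u y) (u z) < 1 := hu.continuousAt (Metric.ball_mem_nhds _ one_pos)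
    filter_upwards [h1] with y hy
    rw [dist_eq_norm, hk, hk, ← ofZ_sub] at hy
    exact sub_eq_zero.1 (norm_ofZ_lt hy)
  refine ⟨k 0, fun z => ?_⟩
  rw [hk z, hlc.apply_eq_of_isPreconnected isPreconnected_univ (mem_univ z) (mem_univ 0)]

end Pool.Agent.H365R5
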