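import Mathlib
import Pool.Agent.H365R5.Lft
import Pool.Agent.H365R3.Good

set_option autoImplicit false

open scoped Manifold ContDiff Topology
open Set Filter

noncomputable section

namespace Pool.Agent.H365R5

open Pool.Agent.H365R3 Pool.Agent.H365R4

/-! ### The linear automorphism -/

/-- The hyperbolic matrix with rows `(3, 1)` and `(1, 0)`. -/
def FE : V2 ≃ V2 where
  toFun z := (3 * z.1 + z.2, z.1)
  invFun z := (z.2, z.1 - 3 * z.2)
  left_inv z := by ext <;> simp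
  right_inv z := by ext <;> simp

theorem FE_apply (z : V2) : FE z = (3 * z.1 + z.2, z.1) := rfl

theorem FE_symm_apply (z : V2) : FE.symm z = (z.2, z.1 - 3 * z.2) := rfl

/-- The linear map `FE`. -/
def FL : V2 →L[ℝ] V2 :=
  ((3 : ℝ) • ContinuousLinearMap.fst ℝ ℝ ℝ + ContinuousLinearMap.snd ℝ ℝ ℝ).prod
    (ContinuousLinearMap.fst ℝ ℝ ℝ)

/-- The inverse of `FL`. -/
def FI : V2 →L[ℝ] V2 :=
  (ContinuousLinearMap.snd ℝ ℝ ℝ).prod
    (ContinuousLinearMap.fst ℝ ℝ ℝ - (3 : ℝ) • ContinuousLinearMap.snd ℝ ℝ ℝ)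

theorem FL_apply (z : V2) : FL z = FE z := rfl

theorem FI_apply (z : V2) : FI z = FE.symm z := rfl

theorem FE_smooth : ContDiff ℝ 1 FE := FL.contDiff

theorem FEs_smooth : ContDiff ℝ 1 FE.symm := FI.contDiff

theorem FE_add (z w : V2) : FE (z + w) = FE z + FE w := FL.map_add z w

theorem FE_sub (z w : V2) : FE (z - w) = FE z - FE w := FL.map_sub z w

theorem FE_smul (c : ℝ) (z : V2) : FE (c • z) = c • FE z := FL.map_smul c z

theorem FE_zero : FE 0 = 0 := FL.map_zero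

theorem FE_ofZ (k : ℤ × ℤ) : FE (ofZ k) = ofZ (3 * k.1 + k.2, k.1) := by
  simp [FE_apply, ofZ]

theorem FEs_ofZ (k : ℤ × ℤ) : FE.symm (ofZ k) = ofZ (k.2, k.1 - 3 * k.2) := by
  simp [FE_symm_apply, ofZ]

theorem FE_E2 (z z' : V2) (h : E2 z = E2 z') : E2 (FE z) = E2 (FE z') := by
  obtain ⟨k, hk⟩ := (E2_eq_iff z z').1 h
  rw [hk, FE_add, FE_ofZ, E2_ofZ]

theorem FEs_E2 (z z' : V2) (h : E2 z = E2 z') : E2 (FE.symm z) = E2 (FE.symm z') := by
  obtain ⟨k, hk⟩ := (E2_eq_iff z z').1 h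
  rw [hk, ← FI_apply, map_add, FI_apply, FI_apply, FEs_ofZ, E2_ofZ]

/-- The automorphism of the torus induced by `FE`. -/
def FT : T2 ≃ₘ^1⟮I2, I2⟯ T2 := ofLift2 FE FE_smooth FEs_smooth FE_E2 FEs_E2

theorem FT_E2 (z : V2) : FT (E2 z) = E2 (FE z) := ofLift2_E2 _ _ _ _ _ z

/-- The quadratic form. -/
def qd (v : V2) : ℝ := v.1 ^ 2 - v.2 ^ 2

theorem qd_cont : Continuous qd := (continuous_fst.pow 2).sub (continuous_snd.pow 2)

theorem abs_qd_le (v : V2) : |qd v| ≤ ‖v‖ ^ 2 := by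
  have h1 : v.1 ^ 2 ≤ ‖v‖ ^ 2 := by
    have := pow_le_pow_left₀ (norm_nonneg v.1) (norm_fst_le v) 2
    rwa [Real.norm_eq_abs, sq_abs] at this
  have h2 : v.2 ^ 2 ≤ ‖v‖ ^ 2 := by
    have := pow_le_pow_left₀ (norm_nonneg v.2) (norm_snd_le v) 2
    rwa [Real.norm_eq_abs, sq_abs] at this
  rw [qd, abs_le]
  constructor <;> nlinarith [sq_nonneg v.1, sq_nonneg v.2]

theorem norm_sq_le (v : V2) : ‖v‖ ^ 2 ≤ v.1 ^ 2 + v.2 ^ 2 := by
  rw [Prod.norm_def]
  rcases max_cases ‖v.1‖ ‖v.2‖ with ⟨h, -⟩ | ⟨h, -⟩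
  · rw [h, Real.norm_eq_abs, sq_abs]; nlinarith [sq_nonneg v.2]
  · rw [h, Real.norm_eq_abs, sq_abs]; nlinarith [sq_nonneg v.1]

theorem qd_FE (v : V2) : 1 / 2 * ‖v‖ ^ 2 ≤ qd (FE v) - qd v := by
  have h1 : qd (FE v) - qd v = 7 * v.1 ^ 2 + 6 * v.1 * v.2 + 2 * v.2 ^ 2 := by
    simp only [qd, FE_apply]; ring
  rw [h1]
  nlinarith [norm_sq_le v, sq_nonneg (13 * v.1 + 6 * v.2)]

theorem norm_FE_le (v : V2) : ‖FE v‖ ≤ 4 * ‖v‖ := by
  have h1 := norm_fst_le v
  have h2 := norm_snd_le v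
  rw [Prod.norm_def (FE v), max_le_iff]
  simp only [FE_apply, Real.norm_eq_abs] at *
  constructor
  · calc |3 * v.1 + v.2| ≤ |3 * v.1| + |v.2| := abs_add_le _ _
      _ = 3 * |v.1| + |v.2| := by rw [abs_mul, abs_of_pos (by norm_num : (0:ℝ) < 3)]
      _ ≤ 4 * ‖v‖ := by linarith
  · linarith [norm_nonneg v]

theorem norm_le_FE (v : V2) : ‖v‖ ≤ 4 * ‖FE v‖ := by
  have h1 := norm_fst_le (FE v)
  have h2 := norm_snd_le (FE v)
  rw [Prod.norm_def v, max_le_iff]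
  simp only [FE_apply, Real.norm_eq_abs] at *
  constructor
  · linarith [norm_nonneg (3 * v.1 + v.2, v.1)]
  · have : v.2 = (3 * v.1 + v.2) - 3 * v.1 := by ring
    calc |v.2| = |(3 * v.1 + v.2) - 3 * v.1| := by rw [← this]
      _ ≤ |3 * v.1 + v.2| + |3 * v.1| := abs_sub _ _
      _ = |3 * v.1 + v.2| + 3 * |v.1| := by rw [abs_mul 3, abs_of_pos (by norm_num : (0:ℝ) < 3)]
      _ ≤ _ := by linarith

/-! ### Rigidity -/

/-- A bounded solution of `w (F z) = F (w z)` vanishes. -/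
theorem bounded_zero (w : V2 → V2) (hw : ∀ z, w (FE z) = FE (w z)) (B : ℝ) (hB : ∀ z, ‖w z‖ ≤ B)
    (z : V2) : w z = 0 := by
  have hws : ∀ z, w (FE.symm z) = FE.symm (w z) := by
    intro z
    rw [Equiv.eq_symm_apply, ← hw, FE.apply_symm_apply]
  have h1 := (q_decay qd abs_qd_le (by norm_num : (0:ℝ) < 1 / 2) (by norm_num)
    (fun n => w (FE^[n] z)) (fun n => by
      beta_reduce
      rw [Function.iterate_succ_apply', hw]
      exact qd_FE _) (fun n => hB _)).2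
  have h2 := (q_decay (fun v => -qd v) (fun v => by rw [abs_neg]; exact abs_qd_le v)
    (by norm_num : (0:ℝ) < 1 / 32) (by norm_num)
    (fun n => w (FE.symm^[n] z)) (fun n => by
      beta_reduce
      rw [Function.iterate_succ_apply', hws]
      have h3 := qd_FE (FE.symm (w (FE.symm^[n] z)))
      have h4 := norm_FE_le (FE.symm (w (FE.symm^[n] z)))
      rw [FE.apply_symm_apply] at h3 h4
      have h5 : ‖w (FE.symm^[n] z)‖ ^ 2 ≤ (4 * ‖FE.symm (w (FE.symm^[n] z))‖) ^ 2 :=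
        pow_le_pow_left₀ (norm_nonneg _) h4 2
      nlinarith) (fun n => hB _)).2
  beta_reduce at h1 h2
  rw [Function.iterate_zero_apply] at h1 h2
  have h3 : ‖w z‖ ^ 2 ≤ 0 := by nlinarith [sq_nonneg ‖w z‖]
  have h4 : ‖w z‖ = 0 := by
    have := sq_nonneg ‖w z‖
    exact pow_eq_zero_iff (two_ne_zero) |>.1 (le_antisymm h3 this)
  exact norm_eq_zero.1 h4

/-- Periodic continuous functions are bounded. -/
theorem periodic_bounded (u : V2 → V2) (hu : Continuous u) (hp : ∀ z k, u (z + ofZ k) = u z) :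
    ∃ B : ℝ, ∀ z, ‖u z‖ ≤ B := by
  obtain ⟨B, hB⟩ := (isCompact_closedBall (0 : V2) 1).exists_bound_of_continuousOn hu.continuousOn
  refine ⟨B, fun z => ?_⟩
  have h1 : u (z + ofZ (-⌊z.1⌋, -⌊z.2⌋)) = u z := hp z _
  rw [← h1]
  apply hB
  rw [mem_closedBall_zero_iff, Prod.norm_def, max_le_iff]
  constructor
  · change |z.1 + ((-⌊z.1⌋ : ℤ) : ℝ)| ≤ 1
    push_cast
    rw [abs_le]
    constructor <;> linarith [Int.floor_le z.1, Int.lt_floor_add_one z.1]
  · change |z.2 + ((-⌊z.2⌋ : ℤ) : ℝ)| ≤ 1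
    push_cast
    rw [abs_le]
    constructor <;> linarith [Int.floor_le z.2, Int.lt_floor_add_one z.2]

/-- The linear combinations of the identity and `FE`. -/
def MM (a b : ℝ) (z : V2) : V2 := a • z + b • FE z

theorem linear_bounded (x y : V2) (B : ℝ) (h : ∀ z : V2, ‖z.1 • x + z.2 • y‖ ≤ B) :
    x = 0 ∧ y = 0 := by
  have key : ∀ v : V2, (∀ n : ℕ, ‖(n : ℝ) • v‖ ≤ B) → v = 0 := by
    intro v hv
    by_contra h0
    have h1 : 0 < ‖v‖ := norm_pos_iff.2 h0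
    obtain ⟨n, hn⟩ := exists_nat_gt (B / ‖v‖)
    have h2 := hv n
    rw [norm_smul, Real.norm_natCast] at h2
    rw [div_lt_iff₀ h1] at hn
    linarith
  constructor
  · refine key x fun n => ?_
    simpa using h ((n : ℝ), 0)
  · refine key y fun n => ?_
    simpa using h (0, (n : ℝ))

/-- Continuous maps of the torus commuting with `FT` are affine. -/
theorem affine (G : T2 → T2) (hG : Continuous G) (hc : ∀ X, G (FT X) = FT (G X)) :
    ∃ (a b : ℤ) (c : V2), ∀ z, G (E2 z) = E2 (MM a b z + c) := by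
  obtain ⟨g, hgc, hg⟩ := exists_lift G hG
  -- the action on the fundamental group
  have h1 : ∀ k : ℤ × ℤ, ∃ l : ℤ × ℤ, ∀ z, g (z + ofZ k) - g z = ofZ l := by
    intro k
    refine const_of_ofZ (fun z => g (z + ofZ k) - g z)
      ((hgc.comp (continuous_id.add continuous_const)).sub hgc) fun z => ?_
    have : E2 (g (z + ofZ k)) = E2 (g z) := by rw [hg, hg, E2_ofZ]
    obtain ⟨l, hl⟩ := (E2_eq_iff _ _).1 this
    exact ⟨l, by rw [hl]; abel⟩
  choose β hβ using h1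
  have hadd : ∀ k l, β (k + l) = β k + β l := by
    intro k l
    apply ofZ_inj
    rw [ofZ_add, ← hβ (k + l) 0, ← hβ k (0 + ofZ l), ← hβ l 0, ofZ_add]
    have : (0 : V2) + (ofZ k + ofZ l) = 0 + ofZ l + ofZ k := by abel
    rw [this]
    abel
  let βh : ℤ × ℤ →+ ℤ × ℤ := AddMonoidHom.mk' β hadd
  have hβk : ∀ k : ℤ × ℤ, ofZ (β k) = (k.1 : ℝ) • ofZ (β (1, 0)) + (k.2 : ℝ) • ofZ (β (0, 1)) := by
    intro k
    have e1 : k = k.1 • ((1, 0) : ℤ × ℤ) + k.2 • ((0, 1) : ℤ × ℤ) := by ext <;> simp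
    have e2 : β k = k.1 • β (1, 0) + k.2 • β (0, 1) := by
      have : βh k = k.1 • βh (1, 0) + k.2 • βh (0, 1) := by
        conv_lhs => rw [e1]
        rw [map_add, map_zsmul, map_zsmul]
      exact this
    rw [e2]
    simp [ofZ]
  let L : V2 → V2 := fun z => z.1 • ofZ (β (1, 0)) + z.2 • ofZ (β (0, 1))
  have hLc : Continuous L :=
    (continuous_fst.smul continuous_const).add (continuous_snd.smul continuous_const)
  have hLk : ∀ z k, L (z + ofZ k) = L z + ofZ (β k) := by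
    intro z k
    rw [hβk k]
    simp only [L, ofZ, Prod.fst_add, Prod.snd_add, add_smul]
    abel
  let u : V2 → V2 := fun z => g z - L z
  have huc : Continuous u := hgc.sub hLc
  have hup : ∀ z k, u (z + ofZ k) = u z := by
    intro z k
    simp only [u, hLk, ← hβ k z]
    abel
  obtain ⟨B, hB⟩ := periodic_bounded u huc hup
  -- the equation
  obtain ⟨m, hm⟩ := const_of_ofZ (fun z => g (FE z) - FE (g z))
    ((hgc.comp FE_smooth.continuous).sub (FE_smooth.continuous.comp hgc)) (fun z => by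
      have : E2 (g (FE z)) = E2 (FE (g z)) := by
        rw [hg, ← FT_E2, hc, ← hg, FT_E2]
      obtain ⟨l, hl⟩ := (E2_eq_iff _ _).1 this
      exact ⟨l, by rw [hl]; abel⟩)
  obtain ⟨p, hp⟩ : ∃ p : ℤ × ℤ, p = β (1, 0) := ⟨_, rfl⟩
  obtain ⟨q, hq⟩ : ∃ q : ℤ × ℤ, q = β (0, 1) := ⟨_, rfl⟩
  have hLz : ∀ z, L z = z.1 • ofZ p + z.2 • ofZ q := fun z => by rw [hp, hq]
  have hD : ∀ z, L (FE z) - FE (L z)
      = z.1 • (3 • ofZ p + ofZ q - FE (ofZ p)) + z.2 • (ofZ p - FE (ofZ q)) := by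
    intro z
    rw [hLz, hLz, FE_add, FE_smul, FE_smul, FE_apply z]
    ext <;> simp <;> ring
  have hbd : ∀ z : V2, ‖z.1 • (3 • ofZ p + ofZ q - FE (ofZ p)) + z.2 • (ofZ p - FE (ofZ q))‖
      ≤ ‖ofZ m‖ + B + 4 * B := by
    intro z
    rw [← hD]
    have e1 : L (FE z) - FE (L z) = ofZ m - u (FE z) + FE (u z) := by
      rw [← hm z]
      simp only [u, FE_sub]
      abel
    rw [e1]
    calc ‖ofZ m - u (FE z) + FE (u z)‖ ≤ ‖ofZ m - u (FE z)‖ + ‖FE (u z)‖ := norm_add_le _ _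
      _ ≤ (‖ofZ m‖ + ‖u (FE z)‖) + 4 * ‖u z‖ := add_le_add (norm_sub_le _ _) (norm_FE_le _)
      _ ≤ _ := by linarith [hB z, hB (FE z)]
  obtain ⟨k1, k2⟩ := linear_bounded _ _ _ hbd
  have hcomm : ∀ z, L (FE z) = FE (L z) := by
    intro z
    have := hD z
    rw [k1, k2, smul_zero, smul_zero, add_zero] at this
    exact sub_eq_zero.1 this
  -- `u` is constant
  have hu0 : ∀ z, u z - u 0 = 0 := by
    intro z
    refine bounded_zero (fun z => u z - u 0) (fun z => ?_) (B + B) (fun z => ?_) z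
    · have e1 : ∀ z, u (FE z) = FE (u z) + ofZ m := by
        intro z
        rw [← hm z]
        simp only [u, FE_sub, hcomm]
        abel
      have e2 := e1 0
      rw [FE_zero] at e2
      have e5 : FE (u z - u 0) = FE (u z) - FE (u 0) := FE_sub _ _
      have e6 : FE (u 0) = u 0 - ofZ m := eq_sub_of_add_eq e2.symm
      beta_reduce
      rw [e5, e1 z, e6]
      abel
    · exact (norm_sub_le _ _).trans (add_le_add (hB z) (hB 0))
  -- the matrix
  have hp1 : (3 * (p.1 : ℝ) + q.1 - (3 * p.1 + p.2) = 0) := by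
    have := congrArg Prod.fst k1
    simpa [FE_apply, ofZ] using this
  have hp2 : ((p.1 : ℝ) - (3 * q.1 + q.2) = 0) := by
    have := congrArg Prod.fst k2
    simpa [FE_apply, ofZ] using this
  refine ⟨q.2, q.1, u 0, fun z => ?_⟩
  rw [← hg]
  congr 1
  have e3 : g z = L z + u 0 := by
    have := hu0 z
    have e4 : u z = u 0 := sub_eq_zero.1 this
    rw [← e4]
    simp only [u]
    abel
  rw [e3, hLz]
  congr 1
  have hp2' : (p.2 : ℝ) = q.1 := by linarith
  have hp1' : (p.1 : ℝ) = 3 * q.1 + q.2 := by linarith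
  ext
  · simp only [MM, ofZ, FE_apply, Prod.fst_add, Prod.smul_fst, smul_eq_mul, hp1']; ring
  · simp only [MM, ofZ, FE_apply, Prod.snd_add, Prod.smul_snd, smul_eq_mul, hp2']; ring

end Pool.Agent.H365R5
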