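import Mathlib
import Pool.Agent.H365R4.Hyp2
import Pool.Agent.H365R5.Rig

set_option autoImplicit false

open scoped Manifold ContDiff Topology
open Set Filter Bundle

noncomputable section

namespace Pool.Agent.H365R5

open Pool.Agent.H365R3 Pool.Agent.H365R4

section Def

variable {E : Type} [NormedAddCommGroup E] [NormedSpace ℝ E] {H : Type} [TopologicalSpace H]
  {I : ModelWithCorners ℝ E H} {M : Type} [TopologicalSpace M] [ChartedSpace H M]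

/-- `f` is Anosov: there is a continuous `Df`-invariant splitting `TM = Eˢ ⊕ Eᵘ`, with
`‖Dfⁿ|Eˢ‖ ≤ C λⁿ` and `‖Df⁻ⁿ|Eᵘ‖ ≤ C λⁿ` for all `n ≥ 0`. The norms are a continuous family of
norms on the tangent spaces. The continuity of the splitting is expressed by `Eˢ` and `Eᵘ` being
closed subsets of `TM` (for the two summands of a splitting this is the continuity of the
splitting). -/
def IsAnosov [IsManifold I 1 M] (f : M ≃ₘ^1⟮I, I⟯ M) : Prop :=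
  ∃ (N : TangentBundle I M → ℝ) (Es Eu : SubFam I M) (C lam : ℝ),
    IsFibreNorm N ∧ 0 < C ∧ 0 < lam ∧ lam < 1 ∧ IsSplitting univ Es Eu ∧
    IsClosed {z : TangentBundle I M | MemFam Es z} ∧
    IsClosed {z : TangentBundle I M | MemFam Eu z} ∧
    InvariantOver f univ Es ∧ InvariantOver f univ Eu ∧
    ContractsOver f univ Es N C lam ∧ ContractsOver f⁻¹ univ Eu N C lam

end Def

/-- The coordinates of the tangent vectors at `x`. -/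
def vecL (x : T2) : EE2 →L[ℝ] V2 := mfderiv I2 𝓘(ℝ, V2) (cht2 (S2 x)).φ x

/-- The coordinates of a tangent vector. -/
def vec (z : TangentBundle I2 T2) : V2 := vecL z.1 z.2

theorem vec_τ (t v : V2) : vec (τ t v) = v := by
  obtain ⟨k, hk⟩ := (E2_eq_iff t (S2 (E2 t))).1 (E2_S2 (E2 t)).symm
  have h1 : τ t v = τ (S2 (E2 t)) v := by
    conv_lhs => rw [hk]
    exact τ_ofZ _ _ _
  have h2 : ((cht2 (S2 (E2 t))).dφ (τ (S2 (E2 t)) v)).2 = v := by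
    rw [← τ_dψ, (cht2 (S2 (E2 t))).dφ_dψ (0, v) (zero_mem_tgt2 _)]
  have h3 : vec (τ t v) = ((cht2 (S2 (E2 t))).dφ (τ t v)).2 := rfl
  rw [h3, h1, h2]

theorem τ_vec (z : TangentBundle I2 T2) (t : V2) (ht : E2 t = z.1) : z = τ t (vec z) := by
  obtain ⟨v, hv⟩ := τ_surj z t ht
  conv_lhs => rw [hv]
  rw [hv, vec_τ]

theorem NN2_vec (z : TangentBundle I2 T2) : NN2 z = 2 * Real.pi * ‖vec z‖ := by
  conv_lhs => rw [τ_vec z (S2 z.1) (E2_S2 _)]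
  exact NN2_τ _ _

/-- The cone condition. -/
structure Cone (f : T2 ≃ₘ^1⟮I2, I2⟯ T2) (κ B : ℝ) : Prop where
  κ0 : 0 < κ
  κ1 : κ ≤ 1 / 2
  B1 : 1 ≤ B
  cond : ∀ z, κ * ‖vec z‖ ^ 2 ≤ qd (vec (tangentMap I2 I2 f z)) - qd (vec z)
  bound : ∀ z, ‖vec (tangentMap I2 I2 f z)‖ ≤ B * ‖vec z‖

theorem Bd_vec (f : T2 ≃ₘ^1⟮I2, I2⟯ T2) (z : TangentBundle I2 T2) :
    Bd f z ↔ ∃ B : ℝ, ∀ n : ℕ, ‖vec ((tangentMap I2 I2 f)^[n] z)‖ ≤ B := by
  constructor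
  · rintro ⟨B, hB⟩
    refine ⟨B / (2 * Real.pi), fun n => ?_⟩
    have := hB n
    rw [NN2_vec] at this
    rwa [le_div_iff₀ tp_pos, mul_comm]
  · rintro ⟨B, hB⟩
    refine ⟨2 * Real.pi * B, fun n => ?_⟩
    rw [NN2_vec]
    exact mul_le_mul_of_nonneg_left (hB n) tp_pos.le

/-- The derivative of the iterate, in coordinates. -/
theorem exists_PP (f : T2 ≃ₘ^1⟮I2, I2⟯ T2) (t : V2) (n : ℕ) : ∃ P : V2 →L[ℝ] V2,
    (∀ v, P v = vec ((tangentMap I2 I2 f)^[n] (τ t v))) ∧ Function.Surjective P := by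
  obtain ⟨L, hL⟩ := iter_lin f (E2 t) n
  let D : V2 →L[ℝ] EE2 := mfderiv 𝓘(ℝ, V2) I2 E2 t
  have hP : ∀ v, ((vecL (f^[n] (E2 t))).comp (L.comp D)) v
      = vec ((tangentMap I2 I2 f)^[n] (τ t v)) := by
    intro v
    have h1 : τ t v = ⟨E2 t, D v⟩ := rfl
    rw [h1, hL]
    rfl
  refine ⟨(vecL (f^[n] (E2 t))).comp (L.comp D), hP, fun w => ?_⟩
  obtain ⟨z, hz⟩ : ∃ z, z = τ (S2 (f^[n] (E2 t))) w := ⟨_, rfl⟩
  have hz1 : z.1 = f^[n] (E2 t) := by rw [hz, τ_proj, E2_S2]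
  have h0 : ((tangentMap I2 I2 (⇑f⁻¹))^[n] z).1 = E2 t := by
    rw [tangentMap_iter_proj, hz1, inv_iter]
  have h1 := τ_vec ((tangentMap I2 I2 (⇑f⁻¹))^[n] z) t h0.symm
  refine ⟨vec ((tangentMap I2 I2 (⇑f⁻¹))^[n] z), ?_⟩
  have h2 := tangentMap_inv_iter f⁻¹ n z
  rw [inv_inv] at h2
  rw [hP, ← h1, h2, hz, vec_τ]

namespace Cone

variable {f : T2 ≃ₘ^1⟮I2, I2⟯ T2} {κ B : ℝ}

theorem κB0 (S : Cone f κ B) : 0 < κ / B ^ 2 := by
  have := S.κ0; have := S.B1; positivity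

theorem κBle (S : Cone f κ B) : κ / B ^ 2 ≤ κ := by
  refine div_le_self S.κ0.le ?_
  nlinarith [S.B1]

theorem κB1 (S : Cone f κ B) : κ / B ^ 2 < 1 := by
  have := S.κBle; have := S.κ1; linarith

theorem condF (S : Cone f κ B) (z : TangentBundle I2 T2) (n : ℕ) :
    κ / B ^ 2 * ‖vec ((tangentMap I2 I2 f)^[n] z)‖ ^ 2
      ≤ qd (vec ((tangentMap I2 I2 f)^[n + 1] z)) - qd (vec ((tangentMap I2 I2 f)^[n] z)) := by
  rw [Function.iterate_succ_apply']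
  exact (mul_le_mul_of_nonneg_right S.κBle (sq_nonneg _)).trans (S.cond _)

theorem condB (S : Cone f κ B) (z : TangentBundle I2 T2) (n : ℕ) :
    κ / B ^ 2 * ‖vec ((tangentMap I2 I2 (⇑f⁻¹))^[n] z)‖ ^ 2
      ≤ (-qd (vec ((tangentMap I2 I2 (⇑f⁻¹))^[n + 1] z)))
        - (-qd (vec ((tangentMap I2 I2 (⇑f⁻¹))^[n] z))) := by
  rw [Function.iterate_succ_apply']
  obtain ⟨w, hw⟩ : ∃ w, w = (tangentMap I2 I2 (⇑f⁻¹))^[n] z := ⟨_, rfl⟩
  rw [← hw]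
  have h1 := S.cond (tangentMap I2 I2 (⇑f⁻¹) w)
  have h2 := S.bound (tangentMap I2 I2 (⇑f⁻¹) w)
  rw [tangentMap_self_inv] at h1 h2
  have hB : 0 < B := by linarith [S.B1]
  have h3 : ‖vec w‖ ^ 2 ≤ (B * ‖vec (tangentMap I2 I2 (⇑f⁻¹) w)‖) ^ 2 :=
    pow_le_pow_left₀ (norm_nonneg _) h2 2
  have h4 : κ / B ^ 2 * ‖vec w‖ ^ 2 ≤ κ * ‖vec (tangentMap I2 I2 (⇑f⁻¹) w)‖ ^ 2 := by
    rw [div_mul_eq_mul_div, div_le_iff₀ (by positivity)]
    have := mul_le_mul_of_nonneg_left h3 S.κ0.le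
    nlinarith
  linarith

theorem decayF (S : Cone f κ B) {z : TangentBundle I2 T2} (hz : Bd f z) :
    (∀ n, κ / B ^ 2 * ‖vec ((tangentMap I2 I2 f)^[n] z)‖ ^ 2
      ≤ (1 - κ / B ^ 2) ^ n * ‖vec z‖ ^ 2) ∧ qd (vec z) ≤ -(κ / B ^ 2 * ‖vec z‖ ^ 2) := by
  obtain ⟨b, hb⟩ := (Bd_vec f z).1 hz
  exact q_decay qd abs_qd_le S.κB0 S.κB1.le (fun n => vec ((tangentMap I2 I2 f)^[n] z))
    (fun n => S.condF z n) hb

theorem decayB (S : Cone f κ B) {z : TangentBundle I2 T2} (hz : Bd f⁻¹ z) :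
    (∀ n, κ / B ^ 2 * ‖vec ((tangentMap I2 I2 (⇑f⁻¹))^[n] z)‖ ^ 2
      ≤ (1 - κ / B ^ 2) ^ n * ‖vec z‖ ^ 2) ∧ -qd (vec z) ≤ -(κ / B ^ 2 * ‖vec z‖ ^ 2) := by
  obtain ⟨b, hb⟩ := (Bd_vec f⁻¹ z).1 hz
  exact q_decay (fun v => -qd v) (fun v => by rw [abs_neg]; exact abs_qd_le v) S.κB0 S.κB1.le
    (fun n => vec ((tangentMap I2 I2 (⇑f⁻¹))^[n] z)) (fun n => S.condB z n) hb

theorem existsF (S : Cone f κ B) (t : V2) : ∃ v : V2, v ≠ 0 ∧ Bd f (τ t v) := by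
  choose P hP hPs using exists_PP f t
  obtain ⟨v, hv, b, hb⟩ := q_exists qd qd_cont (fun c v => by
      simp only [qd, Prod.smul_fst, Prod.smul_snd, smul_eq_mul]; ring) abs_qd_le S.κB0
    ((0, 1) : V2) (by simp) (by simp [qd]) P hPs
    (fun n v => by rw [hP, hP]; exact S.condF (τ t v) n)
  refine ⟨v, hv, (Bd_vec f _).2 ⟨b, fun n => ?_⟩⟩
  rw [← hP]; exact hb n

theorem existsB (S : Cone f κ B) (t : V2) : ∃ v : V2, v ≠ 0 ∧ Bd f⁻¹ (τ t v) := by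
  choose P hP hPs using exists_PP f⁻¹ t
  obtain ⟨v, hv, b, hb⟩ := q_exists (fun v => -qd v) qd_cont.neg (fun c v => by
      simp only [qd, Prod.smul_fst, Prod.smul_snd, smul_eq_mul]; ring)
    (fun v => by rw [abs_neg]; exact abs_qd_le v) S.κB0
    ((1, 0) : V2) (by simp) (by simp [qd]) P hPs
    (fun n v => by beta_reduce; rw [hP, hP]; exact S.condB (τ t v) n)
  refine ⟨v, hv, (Bd_vec f⁻¹ _).2 ⟨b, fun n => ?_⟩⟩
  rw [← hP]; exact hb n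

theorem isCompl (S : Cone f κ B) (x : T2) : IsCompl (EB f x) (EB f⁻¹ x) := by
  obtain ⟨t, rfl⟩ := E2_surj x
  have hτ0 : ∀ v : V2, v ≠ 0 → (τ t v).2 ≠ 0 := by
    intro v hv h0
    apply hv
    apply τ_inj t
    refine TotalSpace.ext rfl (heq_of_eq ?_)
    rw [h0]
    exact (map_zero (mfderiv 𝓘(ℝ, V2) I2 E2 t)).symm
  have hd : Disjoint (EB f (E2 t)) (EB f⁻¹ (E2 t)) := by
    rw [Submodule.disjoint_def]
    intro v hv hv'
    obtain ⟨w, hw⟩ := τ_surj ⟨E2 t, v⟩ t rfl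
    have h1 : Bd f (τ t w) := by rw [← hw]; exact hv
    have h2 : Bd f⁻¹ (τ t w) := by rw [← hw]; exact hv'
    have h3 := (S.decayF h1).2
    have h4 := (S.decayB h2).2
    rw [vec_τ] at h3 h4
    have h5 : w = 0 := by
      by_contra h0
      have h6 : 0 < ‖w‖ := norm_pos_iff.2 h0
      have h7 := S.κB0
      have : 0 < κ / B ^ 2 * ‖w‖ ^ 2 := by positivity
      linarith
    rw [h5] at hw
    have h2 : v = mfderiv 𝓘(ℝ, V2) I2 E2 t 0 := TotalSpace.mk_inj.1 hw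
    rw [h2]; exact map_zero (mfderiv 𝓘(ℝ, V2) I2 E2 t)
  obtain ⟨v, hv, hvB⟩ := S.existsF t
  obtain ⟨w, hw, hwB⟩ := S.existsB t
  have key : ∀ P P' : Submodule ℝ EE2, Disjoint P P' → (∃ a ∈ P, a ≠ 0) → (∃ a ∈ P', a ≠ 0) →
      IsCompl P P' := by
    rintro P P' hPP ⟨a, ha, ha0⟩ ⟨b, hb, hb0⟩
    refine (Submodule.isCompl_iff_disjoint P P' ?_).2 hPP
    have e1 : 0 < Module.finrank ℝ P := by
      rw [Module.finrank_pos_iff_exists_ne_zero]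
      exact ⟨⟨a, ha⟩, fun h => ha0 (congrArg Subtype.val h)⟩
    have e2 : 0 < Module.finrank ℝ P' := by
      rw [Module.finrank_pos_iff_exists_ne_zero]
      exact ⟨⟨b, hb⟩, fun h => hb0 (congrArg Subtype.val h)⟩
    have e3 : Module.finrank ℝ EE2 = 2 := by simp [EE2]
    omega
  exact key _ _ hd ⟨(τ t v).2, hvB, hτ0 v hv⟩ ⟨(τ t w).2, hwB, hτ0 w hw⟩

theorem contrF (S : Cone f κ B) {z : TangentBundle I2 T2} (hz : Bd f z) (n : ℕ) :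
    NN2 ((tangentMap I2 I2 f)^[n] z)
      ≤ √(1 / (κ / B ^ 2)) * √(1 - κ / B ^ 2) ^ n * NN2 z := by
  have h1 := rate S.κB0 S.κB1 n (norm_nonneg _) ((S.decayF hz).1 n)
  rw [NN2_vec, NN2_vec]
  have := mul_le_mul_of_nonneg_left h1 tp_pos.le
  linarith

theorem contrB (S : Cone f κ B) {z : TangentBundle I2 T2} (hz : Bd f⁻¹ z) (n : ℕ) :
    NN2 ((tangentMap I2 I2 (⇑f⁻¹))^[n] z)
      ≤ √(1 / (κ / B ^ 2)) * √(1 - κ / B ^ 2) ^ n * NN2 z := by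
  have h1 := rate S.κB0 S.κB1 n (norm_nonneg _) ((S.decayB hz).1 n)
  rw [NN2_vec, NN2_vec]
  have := mul_le_mul_of_nonneg_left h1 tp_pos.le
  linarith

end Cone

/-- The vectors with a given rate form a closed set. -/
theorem closed_rate (f : T2 ≃ₘ^1⟮I2, I2⟯ T2) (b l : ℝ) (hb : 0 ≤ b) (hl0 : 0 ≤ l) (hl : l ≤ 1)
    (h : ∀ z, Bd f z → ∀ n, NN2 ((tangentMap I2 I2 f)^[n] z) ≤ b * l ^ n * NN2 z) :
    IsClosed {z | Bd f z} := by
  have e : {z | Bd f z} = ⋂ n : ℕ, {z | NN2 ((tangentMap I2 I2 f)^[n] z) ≤ b * l ^ n * NN2 z} := by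
    ext z
    simp only [mem_setOf_eq, mem_iInter]
    constructor
    · exact fun hz n => h z hz n
    · intro hz
      refine ⟨b * NN2 z, fun n => (hz n).trans ?_⟩
      have h1 : l ^ n ≤ 1 := pow_le_one₀ hl0 hl
      have h2 : 0 ≤ NN2 z := norm_nonneg _
      have h3 : b * l ^ n ≤ b * 1 := mul_le_mul_of_nonneg_left h1 hb
      rw [mul_one] at h3
      exact mul_le_mul_of_nonneg_right h3 h2
  rw [e]
  refine isClosed_iInter fun n => ?_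
  have h1 : Continuous (tangentMap I2 I2 f) := f.contMDiff.continuous_tangentMap le_rfl
  exact isClosed_le (NN2_continuous.comp (h1.iterate n)) (continuous_const.mul NN2_continuous)

theorem Cone.anosov {f : T2 ≃ₘ^1⟮I2, I2⟯ T2} {κ B : ℝ} (S : Cone f κ B) : IsAnosov f := by
  have hb0 : 0 < √(1 / (κ / B ^ 2)) := Real.sqrt_pos.2 (one_div_pos.2 S.κB0)
  have hl0 : 0 < √(1 - κ / B ^ 2) := Real.sqrt_pos.2 (by linarith [S.κB1])
  have hl1 : √(1 - κ / B ^ 2) < 1 := by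
    rw [Real.sqrt_lt' one_pos]
    have := S.κB0
    linarith
  refine ⟨NN2, EB f, EB f⁻¹, √(1 / (κ / B ^ 2)), √(1 - κ / B ^ 2), NN2_norm, hb0, hl0, hl1,
    fun x _ => S.isCompl x, ?_, ?_, ?_, ?_, ?_, ?_⟩
  · exact closed_rate f _ _ hb0.le hl0.le hl1.le fun z hz n => S.contrF hz n
  · exact closed_rate f⁻¹ _ _ hb0.le hl0.le hl1.le fun z hz n => S.contrB hz n
  · rintro ⟨x, v⟩ hx hv
    exact Bd_map (f := f) (z := ⟨x, v⟩) hv
  · rintro ⟨x, v⟩ hx hv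
    exact Bd_map_inv (f := f) (z := ⟨x, v⟩) hv
  · intro x hx v hv n
    exact S.contrF (z := ⟨x, v⟩) hv n
  · intro x hx v hv n
    exact S.contrB (z := ⟨x, v⟩) hv n

end Pool.Agent.H365R5
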