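import Mathlib
import Pool.Agent.H365R5.Ano

set_option autoImplicit false

open scoped Manifold ContDiff Topology
open Set Filter Bundle

noncomputable section

namespace Pool.Agent.H365R5

open Pool.Agent.H365R3 Pool.Agent.H365R4

section General

variable {E : Type} [NormedAddCommGroup E] [NormedSpace ℝ E] {H : Type} [TopologicalSpace H]
  {I : ModelWithCorners ℝ E H} {M : Type} [TopologicalSpace M] [ChartedSpace H M]
  {F : Type} [NormedAddCommGroup F] [NormedSpace ℝ F] [FiniteDimensional ℝ F] [T2Space M]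

/-- The tangent map of a lift. -/
theorem liftD_tangent [IsManifold I 1 M] (c : Cht I M F) {K : F ≃ F} (hok : LiftOK c K)
    (w : TangentBundle I M) (hw : w.1 ∈ c.src) :
    tangentMap I I (liftD c K hok) w =
      c.dψ (K (c.dφ w).1, fderiv ℝ K (c.dφ w).1 (c.dφ w).2) := by
  have h1 := c.dφ_tangentMap c (liftD c K hok) w hw (liftD_mem c hok hw)
    (liftD c K hok).contMDiff.contMDiffAt
  have h2 : fderiv ℝ (fun y => c.φ (liftD c K hok (c.ψ y))) (c.φ w.1)
      = fderiv ℝ K (c.φ w.1) := by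
    apply Filter.EventuallyEq.fderiv_eq
    filter_upwards [c.open_tgt.mem_nhds (c.φ_mem _ hw)] with y hy
    rw [φ_liftD c hok (c.ψ_mem y hy), c.φψ y hy]
  rw [h2, φ_liftD c hok hw] at h1
  have h3 := c.dψ_dφ (tangentMap I I (liftD c K hok) w) (liftD_mem c hok hw)
  rw [← h3, h1]
  rfl

/-- Outside the chart the tangent map of a lift is the identity. -/
theorem liftD_tangent_off [IsManifold I 1 M] (c : Cht I M F) {K : F ≃ F} (hok : LiftOK c K)
    (w : TangentBundle I M) (hw : w.1 ∉ c.src) :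
    tangentMap I I (liftD c K hok) w = w := by
  obtain ⟨ρ, hρ, hoff⟩ := hok.ex
  have hc : IsCompact (c.ψ '' Metric.closedBall (0 : F) ρ) :=
    (isCompact_closedBall (0 : F) ρ).image_of_continuousOn
      (c.smooth_ψ.continuousOn.mono hρ)
  have hx' : w.1 ∈ (c.ψ '' Metric.closedBall (0 : F) ρ)ᶜ := by
    rintro ⟨y, hy, hyw⟩
    exact hw (hyw ▸ c.ψ_mem y (hρ hy))
  apply tangentMap_of_eventually_id
  filter_upwards [hc.isClosed.isOpen_compl.mem_nhds hx'] with y hy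
  apply liftD_off
  intro hys
  apply hoff
  by_contra hcon
  exact hy ⟨c.φ y, by simpa using (not_le.1 hcon).le, c.ψφ y hys⟩

/-- Lifts of maps converging in the `C¹` sense converge. -/
theorem tendsto_liftD2 [IsManifold I 1 M] (c : Cht I M F) (ρ : ℝ)
    (hρ : Metric.closedBall (0 : F) ρ ⊆ c.tgt) (K : ℕ → (F ≃ F)) (K' : F ≃ F) (ε : ℕ → ℝ)
    (hε : Tendsto ε atTop (𝓝 0)) (hok : ∀ n, LiftOK c (K n)) (hok' : LiftOK c K')
    (hoff : ∀ n z, ρ ≤ ‖z‖ → K n z = z) (hoff' : ∀ z, ρ ≤ ‖z‖ → K' z = z)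
    (h0 : ∀ n, K n 0 = 0) (h0' : K' 0 = 0)
    (h : ∀ n z, ‖fderiv ℝ (K n) z - fderiv ℝ K' z‖ ≤ ε n) :
    Tendsto (fun n => liftD c (K n) (hok n)) atTop (𝓝 (liftD c K' hok')) := by
  rw [nhds_induced, tendsto_comap_iff]
  apply tendsto_compactOpen_of
  intro z
  have hprojc : Continuous (TotalSpace.proj : TangentBundle I M → M) :=
    FiberBundle.continuous_proj E (TangentSpace I : M → Type)
  by_cases hz : z.1 ∈ c.src
  · have hopen : IsOpen (TotalSpace.proj ⁻¹' c.src : Set (TangentBundle I M)) :=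
      c.open_src.preimage hprojc
    have hcφ : ContinuousAt c.dφ z := c.continuousOn_dφ.continuousAt (hopen.mem_nhds hz)
    have hopen2 : IsOpen (Prod.fst ⁻¹' c.tgt : Set (F × F)) := c.open_tgt.preimage continuous_fst
    have hmem2 : ((K' (c.dφ z).1, fderiv ℝ K' (c.dφ z).1 (c.dφ z).2) : F × F)
        ∈ (Prod.fst ⁻¹' c.tgt : Set (F × F)) := hok'.mem (c.φ_mem _ hz)
    have hcψ : ContinuousAt c.dψ (K' (c.dφ z).1, fderiv ℝ K' (c.dφ z).1 (c.dφ z).2) :=
      c.continuousOn_dψ.continuousAt (hopen2.mem_nhds hmem2)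
    have hlim : Tendsto (fun p : ℕ × TangentBundle I M =>
        ((K p.1 (c.dφ p.2).1, fderiv ℝ (K p.1) (c.dφ p.2).1 (c.dφ p.2).2) : F × F))
        (atTop ×ˢ 𝓝 z) (𝓝 (K' (c.dφ z).1, fderiv ℝ K' (c.dφ z).1 (c.dφ z).2)) := by
      have hsnd : Tendsto (fun p : ℕ × TangentBundle I M => c.dφ p.2) (atTop ×ˢ 𝓝 z)
          (𝓝 (c.dφ z)) := hcφ.tendsto.comp tendsto_snd
      have hfst : Tendsto (fun p : ℕ × TangentBundle I M => ε p.1) (atTop ×ˢ 𝓝 z) (𝓝 0) :=
        hε.comp tendsto_fst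
      have a1 : Tendsto (fun p : ℕ × TangentBundle I M => (c.dφ p.2).1) (atTop ×ˢ 𝓝 z)
          (𝓝 (c.dφ z).1) := (continuous_fst.tendsto _).comp hsnd
      have a2 : Tendsto (fun p : ℕ × TangentBundle I M => (c.dφ p.2).2) (atTop ×ˢ 𝓝 z)
          (𝓝 (c.dφ z).2) := (continuous_snd.tendsto _).comp hsnd
      have a3 : Tendsto (fun p : ℕ × TangentBundle I M => K' (c.dφ p.2).1) (atTop ×ˢ 𝓝 z)
          (𝓝 (K' (c.dφ z).1)) := (hok'.cd.continuous.tendsto _).comp a1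
      have a4 : Tendsto (fun p : ℕ × TangentBundle I M =>
          fderiv ℝ K' (c.dφ p.2).1 (c.dφ p.2).2) (atTop ×ˢ 𝓝 z)
          (𝓝 (fderiv ℝ K' (c.dφ z).1 (c.dφ z).2)) := by
        have a5 : Tendsto (fun p : ℕ × TangentBundle I M => fderiv ℝ K' (c.dφ p.2).1)
            (atTop ×ˢ 𝓝 z) (𝓝 (fderiv ℝ K' (c.dφ z).1)) :=
          ((hok'.cd.continuous_fderiv one_ne_zero).tendsto _).comp a1
        exact ((isBoundedBilinearMap_apply (𝕜 := ℝ) (E := F) (F := F)).continuous.tendsto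
          (fderiv ℝ K' (c.dφ z).1, (c.dφ z).2)).comp (a5.prodMk_nhds a2)
      have b1 : Tendsto (fun p : ℕ × TangentBundle I M => K p.1 (c.dφ p.2).1 - K' (c.dφ p.2).1)
          (atTop ×ˢ 𝓝 z) (𝓝 0) := by
        refine squeeze_zero_norm (a := fun p : ℕ × TangentBundle I M => ε p.1 * ‖(c.dφ p.2).1‖)
          ?_ ?_
        · intro p
          have h1 : ∀ y ∈ (univ : Set F), HasFDerivWithinAt (fun y => K p.1 y - K' y)
              (fderiv ℝ (K p.1) y - fderiv ℝ K' y) univ y := by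
            intro y _
            exact ((((hok p.1).cd.differentiable one_ne_zero) y).hasFDerivAt.sub
              ((hok'.cd.differentiable one_ne_zero) y).hasFDerivAt).hasFDerivWithinAt
          have h2 := convex_univ.norm_image_sub_le_of_norm_hasFDerivWithin_le h1
            (fun y _ => h p.1 y) (mem_univ 0) (mem_univ (c.dφ p.2).1)
          simpa [h0, h0'] using h2
        · simpa using hfst.mul a1.norm
      have b2 : Tendsto (fun p : ℕ × TangentBundle I M =>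
          fderiv ℝ (K p.1) (c.dφ p.2).1 (c.dφ p.2).2 - fderiv ℝ K' (c.dφ p.2).1 (c.dφ p.2).2)
          (atTop ×ˢ 𝓝 z) (𝓝 0) := by
        refine squeeze_zero_norm (a := fun p : ℕ × TangentBundle I M => ε p.1 * ‖(c.dφ p.2).2‖)
          ?_ ?_
        · intro p
          have h1 := h p.1 (c.dφ p.2).1
          have h2 := (fderiv ℝ (K p.1) (c.dφ p.2).1 - fderiv ℝ K' (c.dφ p.2).1).le_of_opNorm_le
            h1 (c.dφ p.2).2
          simpa using h2
        · simpa using hfst.mul a2.norm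
      have c1 := b1.add a3
      have c2 := b2.add a4
      simp only [sub_add_cancel, zero_add] at c1 c2
      exact c1.prodMk_nhds c2
    have hfin := hcψ.tendsto.comp hlim
    have hval : tanMap (liftD c K' hok') z
        = c.dψ (K' (c.dφ z).1, fderiv ℝ K' (c.dφ z).1 (c.dφ z).2) := liftD_tangent c hok' z hz
    rw [hval]
    refine hfin.congr' ?_
    have : ∀ᶠ p : ℕ × TangentBundle I M in atTop ×ˢ 𝓝 z, p.2.1 ∈ c.src :=
      tendsto_snd.eventually (hopen.mem_nhds hz)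
    filter_upwards [this] with p hp
    exact (liftD_tangent c (hok p.1) p.2 hp).symm
  · have hc : IsCompact (c.ψ '' Metric.closedBall (0 : F) ρ) :=
      (isCompact_closedBall (0 : F) ρ).image_of_continuousOn
        (c.smooth_ψ.continuousOn.mono hρ)
    have hx' : z.1 ∈ (c.ψ '' Metric.closedBall (0 : F) ρ)ᶜ := by
      rintro ⟨w, hw, hwz⟩
      exact hz (hwz ▸ c.ψ_mem w (hρ hw))
    have hopen : IsOpen (TotalSpace.proj ⁻¹' (c.ψ '' Metric.closedBall (0 : F) ρ)ᶜ :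
        Set (TangentBundle I M)) := hc.isClosed.isOpen_compl.preimage hprojc
    have : ∀ᶠ p : ℕ × TangentBundle I M in atTop ×ˢ 𝓝 z,
        p.2 ∈ (TotalSpace.proj ⁻¹' (c.ψ '' Metric.closedBall (0 : F) ρ)ᶜ :
        Set (TangentBundle I M)) := tendsto_snd.eventually (hopen.mem_nhds hx')
    have hsnd : Tendsto (fun p : ℕ × TangentBundle I M => p.2) (atTop ×ˢ 𝓝 z) (𝓝 z) := tendsto_snd
    have hval : tanMap (liftD c K' hok') z = z := liftD_tangent_off c hok' z hz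
    rw [hval]
    refine hsnd.congr' ?_
    filter_upwards [this] with p hp
    symm
    apply tangentMap_of_eventually_id
    filter_upwards [hc.isClosed.isOpen_compl.mem_nhds hp] with y hy
    apply liftD_off
    intro hys
    apply hoff p.1
    by_contra hcon
    exact hy ⟨c.φ y, by simpa using (not_le.1 hcon).le, c.ψφ y hys⟩

end General

/-! ### The cone condition -/

theorem τ_dψ' (t y v : V2) : (cht2 t).dψ (y, v) = τ (t + y) v := by
  have h2 : tangentMap 𝓘(ℝ, V2) I2 (E2 ∘ fun z => t + z) (⟨y, v⟩ : TangentBundle 𝓘(ℝ, V2) V2)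
      = τ (t + y) v := by
    rw [tangentMap_comp_at (⟨y, v⟩ : TangentBundle 𝓘(ℝ, V2) V2) (I' := 𝓘(ℝ, V2))
      (mdiff_E2 (t + y)) (differentiableAt_id.const_add t).mdifferentiableAt]
    have h3 : tangentMap 𝓘(ℝ, V2) 𝓘(ℝ, V2) (fun z => t + z)
        (⟨y, v⟩ : TangentBundle 𝓘(ℝ, V2) V2) = ⟨t + y, v⟩ := by
      rw [tangentMap, mfderiv_eq_fderiv, fderiv_const_add, fderiv_fun_id]
      rfl
    rw [h3]; rfl
  exact h2

theorem vec_dψ (t : V2) (p : V2 × V2) : vec ((cht2 t).dψ p) = p.2 := by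
  rw [τ_dψ' t p.1 p.2, vec_τ]

theorem dφ_vec (t : V2) (z : TangentBundle I2 T2) (hz : z.1 ∈ (cht2 t).src) :
    ((cht2 t).dφ z).2 = vec z := by
  conv_rhs => rw [← (cht2 t).dψ_dφ z hz]
  rw [vec_dψ]

theorem vec_liftD (t : V2) {K : V2 ≃ V2} (hok : LiftOK (cht2 t) K) {δ : ℝ} (hδ : 0 ≤ δ)
    (h : ∀ z, ‖fderiv ℝ K z - ContinuousLinearMap.id ℝ V2‖ ≤ δ) (z : TangentBundle I2 T2) :
    ‖vec (tangentMap I2 I2 (liftD (cht2 t) K hok) z) - vec z‖ ≤ δ * ‖vec z‖ := by
  by_cases hz : z.1 ∈ (cht2 t).src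
  · rw [liftD_tangent _ hok z hz, vec_dψ, dφ_vec t z hz]
    exact (fderiv ℝ K _ - ContinuousLinearMap.id ℝ V2).le_of_opNorm_le (h _) (vec z)
  · rw [liftD_tangent_off _ hok z hz, sub_self, norm_zero]
    positivity

theorem vec_FT (z : TangentBundle I2 T2) : vec (tangentMap I2 I2 FT z) = FE (vec z) := by
  conv_lhs => rw [τ_vec z (S2 z.1) (E2_S2 _)]
  rw [τ_map FT FE _ _ (FT.contMDiff.mdifferentiable one_ne_zero _)
    (FE_smooth.differentiable one_ne_zero _) FT_E2, vec_τ]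
  have : fderiv ℝ FE (S2 z.1) = FL := FL.hasFDerivAt.fderiv
  rw [this]; rfl

theorem qd_sub (v w : V2) : |qd v - qd w| ≤ 2 * ‖v - w‖ * (‖v‖ + ‖w‖) := by
  have e : qd v - qd w = (v.1 - w.1) * (v.1 + w.1) - (v.2 - w.2) * (v.2 + w.2) := by
    unfold qd; ring
  have a1 : |v.1 - w.1| ≤ ‖v - w‖ := norm_fst_le (v - w)
  have a2 : |v.2 - w.2| ≤ ‖v - w‖ := norm_snd_le (v - w)
  have b1 : |v.1 + w.1| ≤ ‖v‖ + ‖w‖ := (norm_fst_le (v + w)).trans (norm_add_le _ _)
  have b2 : |v.2 + w.2| ≤ ‖v‖ + ‖w‖ := (norm_snd_le (v + w)).trans (norm_add_le _ _)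
  rw [e]
  calc |(v.1 - w.1) * (v.1 + w.1) - (v.2 - w.2) * (v.2 + w.2)|
      ≤ |(v.1 - w.1) * (v.1 + w.1)| + |(v.2 - w.2) * (v.2 + w.2)| := abs_sub _ _
    _ = |v.1 - w.1| * |v.1 + w.1| + |v.2 - w.2| * |v.2 + w.2| := by rw [abs_mul, abs_mul]
    _ ≤ ‖v - w‖ * (‖v‖ + ‖w‖) + ‖v - w‖ * (‖v‖ + ‖w‖) := by gcongr
    _ = _ := by ring

/-- A small perturbation of the linear automorphism satisfies the cone condition. -/
theorem cone_of (f : T2 ≃ₘ^1⟮I2, I2⟯ T2) (L0 L1 : T2 ≃ₘ^1⟮I2, I2⟯ T2) (hf : f = FT * (L0 * L1))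
    (h0 : ∀ z, ‖vec (tangentMap I2 I2 L0 z) - vec z‖ ≤ 1 / 300 * ‖vec z‖)
    (h1 : ∀ z, ‖vec (tangentMap I2 I2 L1 z) - vec z‖ ≤ 1 / 300 * ‖vec z‖) :
    Cone f (2 / 5) 5 := by
  have key : ∀ z, ∃ w : V2, vec (tangentMap I2 I2 f z) = FE w ∧ ‖w - vec z‖ ≤ 1 / 100 * ‖vec z‖ := by
    intro z
    have e1 : tangentMap I2 I2 f z = tangentMap I2 I2 FT (tangentMap I2 I2 L0
        (tangentMap I2 I2 L1 z)) := by
      have := tanMap_mul FT (L0 * L1)
      rw [tanMap_mul L0 L1, ← hf] at this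
      exact DFunLike.congr_fun this z
    refine ⟨vec (tangentMap I2 I2 L0 (tangentMap I2 I2 L1 z)), by rw [e1, vec_FT], ?_⟩
    have e2 := h0 (tangentMap I2 I2 L1 z)
    have e3 := h1 z
    have e4 : ‖vec (tangentMap I2 I2 L1 z)‖ ≤ 301 / 300 * ‖vec z‖ := by
      have := norm_add_le (vec (tangentMap I2 I2 L1 z) - vec z) (vec z)
      rw [sub_add_cancel] at this
      linarith
    have e5 : vec (tangentMap I2 I2 L0 (tangentMap I2 I2 L1 z)) - vec z
        = (vec (tangentMap I2 I2 L0 (tangentMap I2 I2 L1 z)) - vec (tangentMap I2 I2 L1 z))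
          + (vec (tangentMap I2 I2 L1 z) - vec z) := by abel
    rw [e5]
    refine (norm_add_le _ _).trans ?_
    linarith [norm_nonneg (vec z)]
  have hn : ∀ (v w : V2), ‖w - v‖ ≤ 1 / 100 * ‖v‖ → 99 / 100 * ‖v‖ ≤ ‖w‖ ∧
      ‖w‖ ≤ 101 / 100 * ‖v‖ := by
    intro v w h
    constructor
    · have := norm_sub_norm_le v w
      rw [norm_sub_rev] at this
      linarith
    · have := norm_add_le (w - v) v
      rw [sub_add_cancel] at this
      linarith
  refine ⟨by norm_num, by norm_num, by norm_num, fun z => ?_, fun z => ?_⟩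
  · obtain ⟨w, hw, hwz⟩ := key z
    rw [hw]
    obtain ⟨k1, k2⟩ := hn _ _ hwz
    have e1 := qd_FE w
    have e2 := qd_sub w (vec z)
    have e3 := (abs_le.1 e2).1
    have e4 : (99 / 100 * ‖vec z‖) ^ 2 ≤ ‖w‖ ^ 2 := pow_le_pow_left₀ (by positivity) k1 2
    have e5 : 2 * ‖w - vec z‖ * (‖w‖ + ‖vec z‖) ≤ 2 * (1 / 100 * ‖vec z‖) *
        (101 / 100 * ‖vec z‖ + ‖vec z‖) := by gcongr
    nlinarith [sq_nonneg ‖vec z‖]
  · obtain ⟨w, hw, hwz⟩ := key z
    rw [hw]
    have := (hn _ _ hwz).2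
    have := norm_FE_le w
    linarith [norm_nonneg (vec z)]

end Pool.Agent.H365R5
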