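import Mathlib
import Pool.Agent.H365R3.Ana1
import Pool.Agent.H365R4.Phi

set_option autoImplicit false

open scoped Topology
open Set Filter

noncomputable section

namespace Pool.Agent.H365R5

open Pool.Agent.H365R3 Pool.Agent.H365R4

/-- Slowly varying functions. -/
structure Slow (ε : ℝ) (β : ℝ → ℝ) : Prop where
  cd : ContDiff ℝ 1 β
  zero : ∀ t ≤ 0, β t = 0
  bd : ∀ t, |deriv β t| ≤ ε
  dec : ∀ t, 0 < t → t * |deriv β t| ≤ 4 * ε

theorem Slow.mono {ε ε' : ℝ} {β : ℝ → ℝ} (h : Slow ε β) (he : ε ≤ ε') : Slow ε' β :=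
  ⟨h.cd, h.zero, fun t => (h.bd t).trans he, fun t ht => (h.dec t ht).trans (by linarith)⟩

theorem Slow.diff {ε : ℝ} {β : ℝ → ℝ} (h : Slow ε β) (t : ℝ) : HasDerivAt β (deriv β t) t :=
  (h.cd.differentiable one_ne_zero t).hasDerivAt

theorem Slow.lip {ε : ℝ} {β : ℝ → ℝ} (h : Slow ε β) (s t : ℝ) : |β s - β t| ≤ ε * |s - t| := by
  have := convex_univ.norm_image_sub_le_of_norm_hasDerivWithin_le (f := β) (f' := deriv β)
    (C := ε) (fun x _ => (h.diff x).hasDerivWithinAt) (fun x _ => h.bd x) (mem_univ t) (mem_univ s)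
  simpa using this

theorem Slow.abs_le {ε : ℝ} {β : ℝ → ℝ} (h : Slow ε β) {t : ℝ} (ht : 0 ≤ t) : |β t| ≤ ε * t := by
  have := h.lip t 0
  rwa [h.zero 0 le_rfl, sub_zero, sub_zero, abs_of_nonneg ht] at this

/-- Pairs of slowly varying functions such that `t ↦ t + β t` and `t ↦ t + γ t` are inverse. -/
structure SP (ε : ℝ) (β γ : ℝ → ℝ) : Prop where
  b : Slow ε β
  c : Slow ε γ
  inv1 : ∀ t, γ t + β (t + γ t) = 0
  inv2 : ∀ t, β t + γ (t + β t) = 0

theorem SP.symm {ε : ℝ} {β γ : ℝ → ℝ} (h : SP ε β γ) : SP ε γ β := ⟨h.c, h.b, h.inv2, h.inv1⟩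

theorem exists_SP {ε : ℝ} {β : ℝ → ℝ} (hε : ε ≤ 1 / 4) (h : Slow ε β) : ∃ γ, SP (4 * ε) β γ := by
  have hε0 : 0 ≤ ε := (abs_nonneg _).trans (h.bd 0)
  have hT : ContDiff ℝ 1 (fun t => t + β t) := contDiff_id.add h.cd
  have hder : ∀ t, HasDerivAt (fun t => t + β t) (1 + deriv β t) t := fun t =>
    (hasDerivAt_id t).add (h.diff t)
  obtain ⟨e, he, hes⟩ := exists_inverse (fun t : ℝ => t + β t) hT (fun t => by
    have h1 : fderiv ℝ (fun t : ℝ => t + β t) t - ContinuousLinearMap.id ℝ ℝ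
        = ContinuousLinearMap.toSpanSingleton ℝ (deriv β t) := by
      rw [(hder t).hasFDerivAt.fderiv]
      ext
      simp
    rw [h1, ContinuousLinearMap.norm_toSpanSingleton, Real.norm_eq_abs]
    exact (h.bd t).trans (by linarith))
  have inv1 : ∀ t, (e.symm t - t) + β (t + (e.symm t - t)) = 0 := by
    intro t
    have h1 := he (e.symm t)
    rw [e.apply_symm_apply] at h1
    have h2 : t + (e.symm t - t) = e.symm t := by ring
    rw [h2]; linarith
  have hcd : ContDiff ℝ 1 (fun t => e.symm t - t) := hes.sub contDiff_id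
  have hz : ∀ t ≤ 0, e.symm t - t = 0 := by
    intro t ht
    have h1 : e t = t := by rw [he, h.zero t ht, add_zero]
    rw [sub_eq_zero, Equiv.symm_apply_eq, h1]
  -- the derivative
  obtain ⟨γ, hγ⟩ : ∃ γ : ℝ → ℝ, γ = fun t => e.symm t - t := ⟨_, rfl⟩
  have hγt : ∀ t, e.symm t - t = γ t := fun t => by rw [hγ]
  rw [← hγ] at hcd
  have hdγ : ∀ t, HasDerivAt γ (deriv γ t) t := fun t =>
    (hcd.differentiable one_ne_zero t).hasDerivAt
  have inv1' : ∀ t, γ t + β (t + γ t) = 0 := fun t => by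
    have := inv1 t; rwa [hγt] at this
  have hrel : ∀ t, deriv γ t + deriv β (t + γ t) * (1 + deriv γ t) = 0 := by
    intro t
    have h1 : HasDerivAt (fun t => γ t + β (t + γ t))
        (deriv γ t + deriv β (t + γ t) * (1 + deriv γ t)) t :=
      (hdγ t).add ((h.diff (t + γ t)).comp t ((hasDerivAt_id t).add (hdγ t)))
    have h2 : (fun t => γ t + β (t + γ t)) = fun _ => (0 : ℝ) := funext inv1'
    rw [h2] at h1
    exact h1.unique (hasDerivAt_const t 0)
  have hb : ∀ t, |deriv γ t| ≤ 2 * |deriv β (t + γ t)| := by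
    intro t
    have h1 := hrel t
    have h2 := h.bd (t + γ t)
    have h3 : deriv γ t = -(deriv β (t + γ t) * (1 + deriv γ t)) := by linarith
    have h4 : |deriv γ t| ≤ |deriv β (t + γ t)| * (1 + |deriv γ t|) := by
      conv_lhs => rw [h3]
      rw [abs_neg, abs_mul]
      refine mul_le_mul_of_nonneg_left ?_ (abs_nonneg _)
      refine (abs_add_le _ _).trans ?_
      rw [abs_one]
    nlinarith [abs_nonneg (deriv γ t), abs_nonneg (deriv β (t + γ t))]
  have hbd : ∀ t, |deriv γ t| ≤ 2 * ε := fun t => (hb t).trans (by linarith [h.bd (t + γ t)])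
  refine ⟨γ, h.mono (by linarith), ⟨hcd, fun t ht => by rw [← hγt]; exact hz t ht,
    fun t => (hbd t).trans (by linarith), fun t ht => ?_⟩, inv1', fun t => ?_⟩
  · have h1 : |γ t| ≤ 2 * ε * t := by
      have := convex_univ.norm_image_sub_le_of_norm_hasDerivWithin_le (f := γ) (f' := deriv γ)
        (C := 2 * ε) (fun x _ => (hdγ x).hasDerivWithinAt) (fun x _ => hbd x) (mem_univ 0)
        (mem_univ t)
      have h0 : γ 0 = 0 := by rw [← hγt]; exact hz 0 le_rfl
      rw [h0, sub_zero, sub_zero, Real.norm_eq_abs, Real.norm_eq_abs, abs_of_pos ht] at this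
      exact this
    have h2 : t / 2 ≤ t + γ t := by
      have := neg_abs_le (γ t)
      nlinarith
    have h3 := h.dec (t + γ t) (by linarith)
    have h4 := hb t
    have h5 := abs_nonneg (deriv β (t + γ t))
    nlinarith
  · rw [← hγt]
    have h1 : e.symm (t + β t) = t := by rw [Equiv.symm_apply_eq, he]
    rw [h1]; ring

/-! ### The examples -/

theorem pos2_cd : ContDiff ℝ 1 pos2 := by
  rw [contDiff_one_iff_deriv]
  refine ⟨fun x => (pos2_deriv x).differentiableAt, ?_⟩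
  have : deriv pos2 = fun x => 2 * max x 0 := funext fun x => (pos2_deriv x).deriv
  rw [this]
  exact continuous_const.mul (continuous_id.max continuous_const)

theorem pos2_nonneg (x : ℝ) : 0 ≤ pos2 x := sq_nonneg _

/-- The basic profile. -/
def bb (ε t : ℝ) : ℝ := ε * Real.log (1 + pos2 t)

theorem bb_deriv (ε t : ℝ) : HasDerivAt (bb ε) (ε * (2 * max t 0 / (1 + pos2 t))) t := by
  have h1 : HasDerivAt (fun t => 1 + pos2 t) (2 * max t 0) t := (pos2_deriv t).const_add 1
  exact (h1.log (by have := pos2_nonneg t; positivity)).const_mul ε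

theorem bb_cd (ε : ℝ) : ContDiff ℝ 1 (bb ε) :=
  contDiff_const.mul ((contDiff_const.add pos2_cd).log fun t => by
    have := pos2_nonneg t; positivity)

theorem bb_zero (ε t : ℝ) (ht : t ≤ 0) : bb ε t = 0 := by
  rw [bb, pos2_of_nonpos ht, add_zero, Real.log_one, mul_zero]

theorem bb_nonneg {ε : ℝ} (hε : 0 ≤ ε) (t : ℝ) : 0 ≤ bb ε t :=
  mul_nonneg hε (Real.log_nonneg (by have := pos2_nonneg t; linarith))

theorem bb_bd {ε : ℝ} (hε : 0 ≤ ε) (t : ℝ) : |deriv (bb ε) t| ≤ ε ∧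
    (0 < t → t * |deriv (bb ε) t| ≤ 2 * ε) := by
  rw [(bb_deriv ε t).deriv]
  have hp := pos2_nonneg t
  have h0 : 0 ≤ ε * (2 * max t 0 / (1 + pos2 t)) := by positivity
  rw [abs_of_nonneg h0]
  constructor
  · have h1 : 2 * max t 0 / (1 + pos2 t) ≤ 1 := by
      rw [div_le_one (by positivity)]
      have h2 : pos2 t = max t 0 ^ 2 := rfl
      rw [h2]; nlinarith [sq_nonneg (max t 0 - 1)]
    calc ε * (2 * max t 0 / (1 + pos2 t)) ≤ ε * 1 := mul_le_mul_of_nonneg_left h1 hε
      _ = ε := mul_one ε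
  · intro ht
    rw [max_eq_left ht.le, pos2_of_nonneg ht.le]
    have h1 : t * (2 * t / (1 + t ^ 2)) ≤ 2 := by
      rw [← mul_div_assoc, div_le_iff₀ (by positivity)]
      nlinarith
    calc t * (ε * (2 * t / (1 + t ^ 2))) = ε * (t * (2 * t / (1 + t ^ 2))) := by ring
      _ ≤ ε * 2 := mul_le_mul_of_nonneg_left h1 hε
      _ = 2 * ε := mul_comm _ _

theorem bb_slow {ε : ℝ} (hε : 0 ≤ ε) : Slow ε (bb ε) :=
  ⟨bb_cd ε, bb_zero ε, fun t => (bb_bd hε t).1, fun t ht => ((bb_bd hε t).2 ht).trans (by linarith)⟩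

theorem bb_unbounded {ε : ℝ} (hε : 0 < ε) : Tendsto (bb ε) atTop atTop := by
  refine Tendsto.const_mul_atTop hε (Real.tendsto_log_atTop.comp ?_)
  refine tendsto_atTop_add_const_left _ _ ?_
  refine tendsto_atTop_mono' _ ?_ tendsto_id
  filter_upwards [eventually_ge_atTop 1] with t ht
  rw [pos2_of_nonneg (by linarith)]
  simp only [id]
  nlinarith

/-- The truncations. -/
def th (n t : ℝ) : ℝ := t - pos2 (t - n) / 4 + pos2 (t - n - 2) / 4

theorem th_deriv (n t : ℝ) :
    HasDerivAt (th n) (1 - max (t - n) 0 / 2 + max (t - n - 2) 0 / 2) t := by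
  have h1 : HasDerivAt (fun t => pos2 (t - n)) (2 * max (t - n) 0 * 1) t :=
    HasDerivAt.comp (h₂ := pos2) (h := fun t => t - n) t (pos2_deriv (t - n))
      ((hasDerivAt_id' t).sub_const n)
  have h2 : HasDerivAt (fun t => pos2 (t - n - 2)) (2 * max (t - n - 2) 0 * 1) t :=
    HasDerivAt.comp (h₂ := pos2) (h := fun t => t - n - 2) t (pos2_deriv (t - n - 2))
      (((hasDerivAt_id' t).sub_const n).sub_const 2)
  have h3 := ((hasDerivAt_id t).sub (h1.div_const 4)).add (h2.div_const 4)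
  refine h3.congr_deriv ?_
  ring

theorem th_cd (n : ℝ) : ContDiff ℝ 1 (th n) :=
  (contDiff_id.sub ((pos2_cd.comp (contDiff_id.sub contDiff_const)).div_const 4)).add
    ((pos2_cd.comp ((contDiff_id.sub contDiff_const).sub contDiff_const)).div_const 4)

theorem th_low (n : ℝ) {t : ℝ} (ht : t ≤ n) : th n t = t := by
  rw [th, pos2_of_nonpos (by linarith), pos2_of_nonpos (by linarith)]; ring

theorem th_high (n : ℝ) {t : ℝ} (ht : n + 2 ≤ t) : th n t = n + 1 := by
  rw [th, pos2_of_nonneg (by linarith), pos2_of_nonneg (by linarith)]; ring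

theorem th_d (n t : ℝ) : |deriv (th n) t| ≤ 1 ∧ (n + 2 ≤ t → deriv (th n) t = 0) := by
  rw [(th_deriv n t).deriv]
  constructor
  · rw [abs_le]
    rcases max_cases (t - n) 0 with ⟨h1, h1'⟩ | ⟨h1, h1'⟩ <;>
    rcases max_cases (t - n - 2) 0 with ⟨h2, h2'⟩ | ⟨h2, h2'⟩ <;>
    rw [h1, h2] <;> constructor <;> linarith
  · intro h
    rw [max_eq_left (by linarith), max_eq_left (by linarith)]; ring

/-- The truncated profile. -/
def bn (ε n t : ℝ) : ℝ := bb ε (th n t)

theorem bn_slow {ε n : ℝ} (hε : 0 ≤ ε) (hn : 0 ≤ n) : Slow ε (bn ε n) := by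
  have hd : ∀ t, HasDerivAt (bn ε n) (deriv (bb ε) (th n t) * deriv (th n) t) t := fun t =>
    (bb_slow hε).diff (th n t) |>.comp t (th_deriv n t).differentiableAt.hasDerivAt
  have hle : ∀ t, |deriv (bn ε n) t| ≤ |deriv (bb ε) (th n t)| := by
    intro t
    rw [(hd t).deriv, abs_mul]
    have := (th_d n t).1
    have h2 := abs_nonneg (deriv (bb ε) (th n t))
    nlinarith
  refine ⟨(bb_cd ε).comp (th_cd n), fun t ht => ?_, fun t => (hle t).trans (bb_bd hε _).1,
    fun t ht => ?_⟩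
  · rw [bn, th_low n (ht.trans hn), bb_zero ε t ht]
  · rcases le_or_gt (n + 2) t with h1 | h1
    · rw [(hd t).deriv, (th_d n t).2 h1]
      simp [hε]
    · rcases le_or_gt t 2 with h2 | h2
      · have h3 := (hle t).trans (bb_bd hε _).1
        have h4 := abs_nonneg (deriv (bn ε n) t)
        nlinarith
      · have h3 : t - 1 ≤ th n t := by
          rw [th]
          have e1 := pos2_nonneg (t - n - 2)
          have e2 : pos2 (t - n) ≤ 4 := by
            rcases le_total (t - n) 0 with h | h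
            · rw [pos2_of_nonpos h]; norm_num
            · rw [pos2_of_nonneg h]; nlinarith
          linarith
        have h4 := (bb_bd hε (th n t)).2 (by linarith)
        have h5 := hle t
        have h6 := abs_nonneg (deriv (bb ε) (th n t))
        nlinarith

theorem bn_low (ε n : ℝ) {t : ℝ} (ht : t ≤ n) : bn ε n t = bb ε t := by rw [bn, th_low n ht]

theorem bn_high (ε n : ℝ) {t : ℝ} (ht : n + 2 ≤ t) : bn ε n t = bb ε (n + 1) := by
  rw [bn, th_high n ht]

theorem bn_nonneg {ε : ℝ} (hε : 0 ≤ ε) (n t : ℝ) : 0 ≤ bn ε n t := bb_nonneg hε _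

theorem SP.nonpos {ε : ℝ} {β γ : ℝ → ℝ} (h : SP ε β γ) (hβ : ∀ t, 0 ≤ β t) (t : ℝ) : γ t ≤ 0 := by
  have := h.inv1 t
  have := hβ (t + γ t)
  linarith

/-- The inverses agree where the functions do. -/
theorem SP.agree {ε ε' : ℝ} {β γ β' γ' : ℝ → ℝ} (h : SP ε β γ) (h' : SP ε' β' γ')
    (hβ : ∀ t, 0 ≤ β t) {n : ℝ} (hag : ∀ t ≤ n, β' t = β t) {t : ℝ} (ht : t ≤ n) : γ' t = γ t := by
  have h1 := h.nonpos hβ t
  have h2 := h.inv1 t
  have h3 : β' (t + γ t) = β (t + γ t) := hag _ (by linarith)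
  have h4 := h'.inv2 (t + γ t)
  rw [h3] at h4
  have h5 : t + γ t + β (t + γ t) = t := by linarith
  rw [h5] at h4
  linarith

/-- The inverse is eventually constant if the function is. -/
theorem SP.const {ε : ℝ} {β γ : ℝ → ℝ} (h : SP ε β γ) (hε : ε ≤ 1 / 2) {s c : ℝ} (hs : 0 ≤ s)
    (hc : ∀ t, s ≤ t → β t = c) {t : ℝ} (ht : 2 * s ≤ t) : γ t = -c := by
  have h1 := h.c.abs_le (t := t) (by linarith)
  have h2 := neg_abs_le (γ t)
  have h3 : s ≤ t + γ t := by
    have : ε * t ≤ 1 / 2 * t := mul_le_mul_of_nonneg_right hε (by linarith)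
    linarith
  have h4 := h.inv1 t
  rw [hc _ h3] at h4
  linarith

end Pool.Agent.H365R5
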