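import Mathlib
import Pool.Agent.H365R5.Slo
import Pool.Agent.H365R5.Rig

set_option autoImplicit false

open scoped Topology
open Set Filter

noncomputable section

namespace Pool.Agent.H365R5

open Pool.Agent.H365R3 Pool.Agent.H365R4

/-- The Euclidean norm squared. -/
def en (z : V2) : ℝ := z.1 ^ 2 + z.2 ^ 2

theorem en_nonneg (z : V2) : 0 ≤ en z := by unfold en; positivity

theorem en_zero : en 0 = 0 := by simp [en]

theorem norm_sq_le_en (z : V2) : ‖z‖ ^ 2 ≤ en z := norm_sq_le z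

theorem en_le (z : V2) : en z ≤ 2 * ‖z‖ ^ 2 := by
  have h1 : z.1 ^ 2 ≤ ‖z‖ ^ 2 := by
    have := pow_le_pow_left₀ (norm_nonneg z.1) (norm_fst_le z) 2
    rwa [Real.norm_eq_abs, sq_abs] at this
  have h2 : z.2 ^ 2 ≤ ‖z‖ ^ 2 := by
    have := pow_le_pow_left₀ (norm_nonneg z.2) (norm_snd_le z) 2
    rwa [Real.norm_eq_abs, sq_abs] at this
  unfold en; linarith

theorem en_pos {z : V2} (hz : z ≠ 0) : 0 < en z :=
  (pow_pos (norm_pos_iff.2 hz) 2).trans_le (norm_sq_le_en z)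

theorem en_smul (c : ℝ) (z : V2) : en (c • z) = c ^ 2 * en z := by
  simp only [en, Prod.smul_fst, Prod.smul_snd, smul_eq_mul]; ring

theorem en_smooth : ContDiff ℝ 1 en := (contDiff_fst.pow 2).add (contDiff_snd.pow 2)

theorem en_FE_le (z : V2) : en (FE z) ≤ 12 * en z := by
  simp only [en, FE_apply]
  nlinarith [sq_nonneg (z.1 - 3 / 2 * z.2), sq_nonneg z.2]

theorem en_le_FE (z : V2) : en z ≤ 12 * en (FE z) := by
  simp only [en, FE_apply]
  nlinarith [sq_nonneg (11 * z.2 + 36 * z.1), sq_nonneg z.1]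

/-- The logarithmic size. -/
def tt (z : V2) : ℝ := -20 - Real.log (en z)

theorem tt_smooth {z : V2} (hz : z ≠ 0) : ContDiffAt ℝ 1 tt z :=
  contDiffAt_const.sub (en_smooth.contDiffAt.log (en_pos hz).ne')

theorem exp20 : Real.exp (-20) ≤ 1 / 3072 := by
  rw [Real.exp_neg, one_div]
  apply inv_anti₀ (by norm_num)
  have h1 : (2 : ℝ) ≤ Real.exp 1 := by linarith [Real.exp_one_gt_d9]
  have h2 : Real.exp 20 = Real.exp 1 ^ 20 := by
    rw [← Real.exp_nat_mul]; norm_num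
  rw [h2]
  calc (3072 : ℝ) ≤ 2 ^ 20 := by norm_num
    _ ≤ _ := pow_le_pow_left₀ (by norm_num) h1 20

theorem tt_nonpos {z : V2} (hz : 1 / 3072 ≤ en z) : tt z ≤ 0 := by
  have h1 : -20 ≤ Real.log (en z) := by
    rw [Real.le_log_iff_exp_le (by linarith)]
    exact exp20.trans hz
  unfold tt; linarith

theorem tt_off {z : V2} (hz : 1 / 16 ≤ ‖z‖) : tt z ≤ 0 ∧ tt (FE z) ≤ 0 := by
  have h1 : 1 / 256 ≤ en z := by
    have h2 := pow_le_pow_left₀ (by norm_num) hz 2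
    have h3 := norm_sq_le_en z
    norm_num at h2
    linarith
  refine ⟨tt_nonpos (by linarith), tt_nonpos ?_⟩
  have := en_le_FE z
  linarith

theorem FE_ne {z : V2} (hz : z ≠ 0) : FE z ≠ 0 := by
  intro h
  apply hz
  rw [← FE_zero] at h
  exact FE.injective h

theorem log12 : Real.log 12 ≤ 11 := by
  have := Real.log_le_sub_one_of_pos (by norm_num : (0:ℝ) < 12)
  linarith

theorem tt_FE {z : V2} (hz : z ≠ 0) : |tt (FE z) - tt z| ≤ 11 := by
  have h1 := en_pos hz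
  have h2 := en_pos (FE_ne hz)
  have h3 : Real.log (en (FE z)) ≤ Real.log 12 + Real.log (en z) := by
    rw [← Real.log_mul (by norm_num) h1.ne']
    exact Real.log_le_log h2 (en_FE_le z)
  have h4 : Real.log (en z) ≤ Real.log 12 + Real.log (en (FE z)) := by
    rw [← Real.log_mul (by norm_num) h2.ne']
    exact Real.log_le_log h1 (en_le_FE z)
  have h5 := log12
  unfold tt
  rw [abs_le]
  constructor <;> linarith

theorem tt_large (A : ℝ) : ∀ᶠ z in 𝓝 (0 : V2), z ≠ 0 → A ≤ tt z := by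
  have h1 : ∀ᶠ z in 𝓝 (0 : V2), en z < Real.exp (-20 - A) := by
    have := en_smooth.continuous.continuousAt (x := (0 : V2))
    have h2 : en 0 < Real.exp (-20 - A) := by rw [en_zero]; exact Real.exp_pos _
    exact this.eventually_lt_const h2
  filter_upwards [h1] with z hz hz0
  have h3 : Real.log (en z) < -20 - A := by
    rw [Real.log_lt_iff_lt_exp (en_pos hz0)]
    exact hz
  unfold tt; linarith

/-- The radial map with profile `β`. -/
def hr (β : ℝ → ℝ) (z : V2) : V2 := Real.exp (-(β (tt z)) / 2) • z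

theorem hr_zero (β : ℝ → ℝ) : hr β 0 = 0 := smul_zero _

theorem hr_ne (β : ℝ → ℝ) {z : V2} (hz : z ≠ 0) : hr β z ≠ 0 :=
  smul_ne_zero (Real.exp_pos _).ne' hz

theorem tt_exp (x : ℝ) {z : V2} (hz : z ≠ 0) : tt (Real.exp (-x / 2) • z) = tt z + x := by
  have h1 := en_pos hz
  have h2 : Real.exp (-x / 2) ^ 2 = Real.exp (-x) := by
    rw [← Real.exp_nat_mul]; congr 1; push_cast; ring
  rw [tt, en_smul, h2, Real.log_mul (Real.exp_pos _).ne' h1.ne', Real.log_exp, tt]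
  ring

theorem tt_hr (β : ℝ → ℝ) {z : V2} (hz : z ≠ 0) : tt (hr β z) = tt z + β (tt z) := tt_exp _ hz

theorem hr_hr {ε : ℝ} {β γ : ℝ → ℝ} (h : SP ε β γ) (z : V2) : hr γ (hr β z) = z := by
  rcases eq_or_ne z 0 with rfl | hz
  · rw [hr_zero, hr_zero]
  · have h1 := h.inv2 (tt z)
    rw [hr, tt_hr β hz, hr, smul_smul, ← Real.exp_add]
    have h2 : -(γ (tt z + β (tt z))) / 2 + -(β (tt z)) / 2 = 0 := by linarith
    rw [h2, Real.exp_zero, one_smul]

/-- The radial homeomorphism. -/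
def hE {ε : ℝ} {β γ : ℝ → ℝ} (h : SP ε β γ) : V2 ≃ V2 where
  toFun := hr β
  invFun := hr γ
  left_inv := hr_hr h
  right_inv := hr_hr h.symm

theorem hr_off {ε : ℝ} {β : ℝ → ℝ} (h : Slow ε β) {z : V2} (hz : tt z ≤ 0) : hr β z = z := by
  rw [hr, h.zero _ hz]; simp

theorem hr_off' {ε : ℝ} {β : ℝ → ℝ} (h : Slow ε β) {z : V2} (hz : 1 / 16 ≤ ‖z‖) : hr β z = z :=
  hr_off h (tt_off hz).1

theorem hr_smoothAt {ε : ℝ} {β : ℝ → ℝ} (h : Slow ε β) {z : V2} (hz : z ≠ 0) :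
    ContDiffAt ℝ 1 (hr β) z := by
  have h1 : ContDiffAt ℝ 1 (fun z => -(β (tt z)) / 2) z :=
    ((h.cd.contDiffAt.comp z (tt_smooth hz)).neg).div_const 2
  exact h1.exp.smul contDiffAt_id

theorem hr_cont {ε : ℝ} {β : ℝ → ℝ} (h : Slow ε β) (hε : ε ≤ 1 / 2) : Continuous (hr β) := by
  rw [continuous_iff_continuousAt]
  intro z
  rcases eq_or_ne z 0 with rfl | hz
  · rw [Metric.continuousAt_iff]
    intro δ hδ
    have h1 : ∀ᶠ z in 𝓝 (0 : V2), ‖z‖ ^ 2 < Real.exp 20 * δ ^ 4 := by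
      have : ContinuousAt (fun z : V2 => ‖z‖ ^ 2) 0 := (continuous_norm.pow 2).continuousAt
      refine this.eventually_lt_const ?_
      have h3 : 0 < Real.exp 20 * δ ^ 4 := by positivity
      simpa using h3
    have h2 := tt_large 0
    obtain ⟨r, hr0, hr1⟩ := Metric.eventually_nhds_iff.1 (h1.and h2)
    refine ⟨r, hr0, fun {w} hw => ?_⟩
    rcases eq_or_ne w 0 with rfl | hw0
    · simpa using hδ
    obtain ⟨k1, k2⟩ := hr1 hw
    have k3 := k2 hw0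
    rw [hr_zero, dist_zero_right]
    apply lt_of_pow_lt_pow_left₀ 4 hδ.le
    rw [hr, norm_smul, mul_pow, Real.norm_eq_abs, abs_of_pos (Real.exp_pos _)]
    have k4 : Real.exp (-(β (tt w)) / 2) ^ 4 ≤ Real.exp (tt w) := by
      rw [← Real.exp_nat_mul, Real.exp_le_exp]
      have := h.abs_le k3
      have := neg_abs_le (β (tt w))
      push_cast
      nlinarith
    have k5 : Real.exp (tt w) = Real.exp (-20) / en w := by
      rw [tt, Real.exp_sub, Real.exp_log (en_pos hw0)]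
    have k6 := en_pos hw0
    have k7 := norm_sq_le_en w
    calc Real.exp (-(β (tt w)) / 2) ^ 4 * ‖w‖ ^ 4 ≤ Real.exp (-20) / en w * ‖w‖ ^ 4 := by
          rw [← k5]
          exact mul_le_mul_of_nonneg_right k4 (by positivity)
      _ ≤ Real.exp (-20) * ‖w‖ ^ 2 := by
          rw [div_mul_eq_mul_div, div_le_iff₀ k6]
          have : ‖w‖ ^ 2 * ‖w‖ ^ 2 ≤ ‖w‖ ^ 2 * en w := mul_le_mul_of_nonneg_left k7 (sq_nonneg _)
          nlinarith [Real.exp_pos (-20)]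
      _ < Real.exp (-20) * (Real.exp 20 * δ ^ 4) :=
          mul_lt_mul_of_pos_left k1 (Real.exp_pos _)
      _ = δ ^ 4 := by
          rw [← mul_assoc, ← Real.exp_add]; simp
  · exact (hr_smoothAt h hz).continuousAt

/-- The map is smooth if the profile is eventually constant. -/
theorem hr_smooth {ε : ℝ} {β : ℝ → ℝ} (h : Slow ε β) {s c : ℝ} (hc : ∀ t, s ≤ t → β t = c) :
    ContDiff ℝ 1 (hr β) := by
  rw [contDiff_iff_contDiffAt]
  intro z
  rcases eq_or_ne z 0 with rfl | hz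
  · have h1 : hr β =ᶠ[𝓝 0] fun z => Real.exp (-c / 2) • z := by
      filter_upwards [tt_large s] with w hw
      rcases eq_or_ne w 0 with rfl | hw0
      · rw [hr_zero, smul_zero]
      · rw [hr, hc _ (hw hw0)]
    have h2 : ContDiff ℝ 1 (fun z : V2 => Real.exp (-c / 2) • z) :=
      (Real.exp (-c / 2) • ContinuousLinearMap.id ℝ V2).contDiff
    exact h2.contDiffAt.congr_of_eventuallyEq h1
  · exact hr_smoothAt h hz

/-! ### The `C¹` maps -/

/-- The correction `F⁻¹ h F h⁻¹`. -/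
def kE {ε : ℝ} {β γ : ℝ → ℝ} (h : SP ε β γ) : V2 ≃ V2 :=
  (hE h.symm).trans (FE.trans ((hE h).trans FE.symm))

/-- The exponent. -/
def Ph (β γ : ℝ → ℝ) (z : V2) : ℝ := γ (tt z) + β (tt (FE z) + γ (tt z))

theorem kE_eq {ε : ℝ} {β γ : ℝ → ℝ} (h : SP ε β γ) (z : V2) :
    kE h z = Real.exp (-(Ph β γ z) / 2) • z := by
  have h0 : kE h z = FE.symm (hr β (FE (hr γ z))) := rfl
  rcases eq_or_ne z 0 with rfl | hz
  · rw [h0, smul_zero, hr_zero, FE_zero, hr_zero, Equiv.symm_apply_eq, FE_zero]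
  · rw [h0, Equiv.symm_apply_eq]
    rw [hr, hr, FE_smul, FE_smul, tt_exp _ (FE_ne hz), smul_smul, ← Real.exp_add]
    congr 2
    unfold Ph
    ring

theorem kE_zero {ε : ℝ} {β γ : ℝ → ℝ} (h : SP ε β γ) : kE h 0 = 0 := by
  rw [kE_eq, smul_zero]

theorem kE_off {ε : ℝ} {β γ : ℝ → ℝ} (h : SP ε β γ) {z : V2} (hz : 1 / 16 ≤ ‖z‖) : kE h z = z := by
  obtain ⟨h1, h2⟩ := tt_off hz
  rw [kE_eq, Ph, h.c.zero _ h1, add_zero, h.b.zero _ h2]
  simp

/-- The derivative of `tt`. -/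
def dt (z : V2) : V2 →L[ℝ] ℝ :=
  -((en z)⁻¹ • ((2 * z.1) • ContinuousLinearMap.fst ℝ ℝ ℝ + (2 * z.2) • ContinuousLinearMap.snd ℝ ℝ ℝ))

theorem tt_deriv {z : V2} (hz : z ≠ 0) : HasFDerivAt tt (dt z) z := by
  have h1 : HasFDerivAt en ((2 * z.1) • ContinuousLinearMap.fst ℝ ℝ ℝ
      + (2 * z.2) • ContinuousLinearMap.snd ℝ ℝ ℝ) z := by
    have e1 := (hasFDerivAt_fst (𝕜 := ℝ) (E := ℝ) (F := ℝ) (p := z)).pow 2
    have e2 := (hasFDerivAt_snd (𝕜 := ℝ) (E := ℝ) (F := ℝ) (p := z)).pow 2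
    refine (e1.add e2).congr_fderiv ?_
    ext <;> simp
  exact (h1.log (en_pos hz).ne').const_sub (-20)

theorem dt_bound {z : V2} (hz : z ≠ 0) (v : V2) : |dt z v| * ‖z‖ ≤ 4 * ‖v‖ := by
  have h1 := en_pos hz
  have h2 := norm_sq_le_en z
  have h3 : |2 * z.1 * v.1 + 2 * z.2 * v.2| ≤ 4 * ‖z‖ * ‖v‖ := by
    have a1 := norm_fst_le z
    have a2 := norm_snd_le z
    have b1 := norm_fst_le v
    have b2 := norm_snd_le v
    rw [Real.norm_eq_abs] at a1 a2 b1 b2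
    calc |2 * z.1 * v.1 + 2 * z.2 * v.2| ≤ |2 * z.1 * v.1| + |2 * z.2 * v.2| := abs_add_le _ _
      _ = 2 * (|z.1| * |v.1|) + 2 * (|z.2| * |v.2|) := by
          rw [abs_mul, abs_mul, abs_mul, abs_mul, abs_of_pos (by norm_num : (0:ℝ) < 2)]; ring
      _ ≤ 2 * (‖z‖ * ‖v‖) + 2 * (‖z‖ * ‖v‖) := by gcongr
      _ = _ := by ring
  have h4 : dt z v = -((en z)⁻¹ * (2 * z.1 * v.1 + 2 * z.2 * v.2)) := by
    simp [dt]
    ring
  rw [h4, abs_neg, abs_mul, abs_of_pos (inv_pos.2 h1)]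
  have h5 : (en z)⁻¹ * |2 * z.1 * v.1 + 2 * z.2 * v.2| * ‖z‖
      ≤ (en z)⁻¹ * (4 * ‖z‖ * ‖v‖) * ‖z‖ := by gcongr
  refine h5.trans ?_
  have h6 : (en z)⁻¹ * (4 * ‖z‖ * ‖v‖) * ‖z‖ = (4 * ‖v‖ * ‖z‖ ^ 2) / en z := by
    rw [div_eq_inv_mul]; ring
  rw [h6, div_le_iff₀ h1]
  exact mul_le_mul_of_nonneg_left h2 (by positivity)

theorem dtF_bound {z : V2} (hz : z ≠ 0) (v : V2) : |dt (FE z) (FL v)| * ‖z‖ ≤ 64 * ‖v‖ := by
  have h1 := dt_bound (FE_ne hz) (FL v)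
  have h2 := norm_le_FE z
  have h3 := norm_FE_le v
  rw [← FL_apply] at h3
  calc |dt (FE z) (FL v)| * ‖z‖ ≤ |dt (FE z) (FL v)| * (4 * ‖FE z‖) :=
        mul_le_mul_of_nonneg_left h2 (abs_nonneg _)
    _ = 4 * (|dt (FE z) (FL v)| * ‖FE z‖) := by ring
    _ ≤ 4 * (4 * (4 * ‖v‖)) := by linarith
    _ = 64 * ‖v‖ := by ring

/-- The derivative of the exponent. -/
def dPh (β γ : ℝ → ℝ) (z : V2) : V2 →L[ℝ] ℝ :=
  deriv γ (tt z) • dt z + deriv β (tt (FE z) + γ (tt z)) • ((dt (FE z)).comp FL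
    + deriv γ (tt z) • dt z)

theorem Ph_deriv {ε : ℝ} {β γ : ℝ → ℝ} (h : SP ε β γ) {z : V2} (hz : z ≠ 0) :
    HasFDerivAt (Ph β γ) (dPh β γ z) z := by
  have h1 : HasFDerivAt (fun z => γ (tt z)) (deriv γ (tt z) • dt z) z :=
    (h.c.diff (tt z)).comp_hasFDerivAt z (tt_deriv hz)
  have h2 : HasFDerivAt (fun z => tt (FE z)) ((dt (FE z)).comp FL) z :=
    HasFDerivAt.comp (g := tt) (f := FE) z (tt_deriv (FE_ne hz)) (FL.hasFDerivAt (x := z))
  have h3 : HasFDerivAt (fun z => β (tt (FE z) + γ (tt z)))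
      (deriv β (tt (FE z) + γ (tt z)) • ((dt (FE z)).comp FL + deriv γ (tt z) • dt z)) z :=
    (h.b.diff _).comp_hasFDerivAt z (h2.add h1)
  exact h1.add h3

/-- The derivative of the correction. -/
def dK (β γ : ℝ → ℝ) (z : V2) : V2 →L[ℝ] V2 :=
  Real.exp (-(Ph β γ z) / 2) • ContinuousLinearMap.id ℝ V2
    + ((Real.exp (-(Ph β γ z) / 2) • ((-(2 : ℝ)⁻¹) • dPh β γ z)).smulRight z)

theorem kE_deriv {ε : ℝ} {β γ : ℝ → ℝ} (h : SP ε β γ) {z : V2} (hz : z ≠ 0) :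
    HasFDerivAt (kE h) (dK β γ z) z := by
  have h1 : (kE h : V2 → V2) = fun z => Real.exp (-(Ph β γ z) / 2) • z := funext (kE_eq h)
  rw [h1]
  have h2 : HasFDerivAt (fun z => -(Ph β γ z) / 2) ((-(2 : ℝ)⁻¹) • dPh β γ z) z := by
    have := (Ph_deriv h hz).const_mul (-(2 : ℝ)⁻¹)
    refine (this.congr_of_eventuallyEq (Eventually.of_forall fun w => ?_))
    change -(Ph β γ w) / 2 = -(2 : ℝ)⁻¹ * Ph β γ w
    ring
  exact h2.exp.smul (hasFDerivAt_id z)

theorem est {ε : ℝ} {β γ : ℝ → ℝ} (h : SP ε β γ) {z : V2} (hz : z ≠ 0) {s ω : ℝ}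
    (hω : ω ≤ 1 / 12) (hb : ∀ t, s ≤ t → |deriv β t| ≤ ω) (hc : ∀ t, s ≤ t → |deriv γ t| ≤ ω)
    (h1 : s ≤ tt z) (h2 : s ≤ tt z + γ (tt z)) (h3 : s ≤ tt (FE z) + γ (tt z)) :
    |Real.exp (-(Ph β γ z) / 2) - 1| ≤ 100 * ω ∧
      ‖dK β γ z - ContinuousLinearMap.id ℝ V2‖ ≤ 100 * ω := by
  have hω0 : 0 ≤ ω := (abs_nonneg _).trans (hb _ h3)
  have hPh : |Ph β γ z| ≤ 11 * ω := by
    have e1 : Ph β γ z = β (tt (FE z) + γ (tt z)) - β (tt z + γ (tt z)) := by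
      have := h.inv1 (tt z)
      unfold Ph; linarith
    rw [e1]
    have e2 := (convex_Ici s).norm_image_sub_le_of_norm_hasDerivWithin_le (f := β) (f' := deriv β)
      (C := ω) (fun x _ => (h.b.diff x).hasDerivWithinAt) (fun x hx => hb x hx)
      (mem_Ici.2 h2) (mem_Ici.2 h3)
    rw [Real.norm_eq_abs, Real.norm_eq_abs, add_sub_add_right_eq_sub] at e2
    have e3 := tt_FE hz
    nlinarith
  have hm : |Real.exp (-(Ph β γ z) / 2) - 1| ≤ 11 * ω := by
    have e1 : |-(Ph β γ z) / 2| ≤ 11 * ω / 2 := by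
      rw [abs_div, abs_neg, abs_of_pos (by norm_num : (0:ℝ) < 2)]
      linarith
    have e2 := Real.abs_exp_sub_one_le (x := -(Ph β γ z) / 2) (by linarith)
    linarith
  obtain ⟨m, hmm⟩ : ∃ m, m = Real.exp (-(Ph β γ z) / 2) := ⟨_, rfl⟩
  have hd : ∀ v, |dPh β γ z v| * ‖z‖ ≤ 72 * ω * ‖v‖ := by
    intro v
    have e1 := dt_bound hz v
    have e2 := dtF_bound hz v
    have e3 := hc _ h1
    have e4 := hb _ h3
    have e5 : dPh β γ z v = deriv γ (tt z) * dt z v + deriv β (tt (FE z) + γ (tt z))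
        * (dt (FE z) (FL v) + deriv γ (tt z) * dt z v) := rfl
    rw [e5]
    have e6 : |deriv γ (tt z) * dt z v + deriv β (tt (FE z) + γ (tt z))
        * (dt (FE z) (FL v) + deriv γ (tt z) * dt z v)| ≤
        |deriv γ (tt z)| * |dt z v| + |deriv β (tt (FE z) + γ (tt z))|
        * (|dt (FE z) (FL v)| + |deriv γ (tt z)| * |dt z v|) := by
      refine (abs_add_le _ _).trans ?_
      rw [abs_mul, abs_mul]
      gcongr
      refine (abs_add_le _ _).trans ?_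
      rw [abs_mul]
    have hn := norm_nonneg v
    have e7 : |deriv γ (tt z)| * (|dt z v| * ‖z‖) ≤ ω * (4 * ‖v‖) := by gcongr
    have e8 : |deriv β (tt (FE z) + γ (tt z))| * ((|dt (FE z) (FL v)| * ‖z‖)
        + |deriv γ (tt z)| * (|dt z v| * ‖z‖)) ≤ ω * (64 * ‖v‖ + ω * (4 * ‖v‖)) := by gcongr
    calc _ ≤ (|deriv γ (tt z)| * |dt z v| + |deriv β (tt (FE z) + γ (tt z))|
        * (|dt (FE z) (FL v)| + |deriv γ (tt z)| * |dt z v|)) * ‖z‖ :=
          mul_le_mul_of_nonneg_right e6 (norm_nonneg _)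
      _ = |deriv γ (tt z)| * (|dt z v| * ‖z‖) + |deriv β (tt (FE z) + γ (tt z))|
          * ((|dt (FE z) (FL v)| * ‖z‖) + |deriv γ (tt z)| * (|dt z v| * ‖z‖)) := by ring
      _ ≤ ω * (4 * ‖v‖) + ω * (64 * ‖v‖ + ω * (4 * ‖v‖)) := add_le_add e7 e8
      _ ≤ 72 * ω * ‖v‖ := by nlinarith [mul_nonneg hω0 hn]
  refine ⟨hm.trans (by linarith), ?_⟩
  refine ContinuousLinearMap.opNorm_le_bound _ (by positivity) fun v => ?_
  have e1 : (dK β γ z - ContinuousLinearMap.id ℝ V2) v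
      = (m - 1) • v + (m * (-(2 : ℝ)⁻¹ * dPh β γ z v)) • z := by
    rw [hmm]
    simp only [dK, sub_apply, add_apply,
      smul_apply, ContinuousLinearMap.smulRight_apply,
      ContinuousLinearMap.id_apply, smul_eq_mul, sub_smul, one_smul]
    abel
  rw [← hmm] at hm
  have hm2 : |m| ≤ 2 := by
    have := abs_sub_abs_le_abs_sub m 1
    rw [abs_one] at this
    linarith
  rw [e1]
  refine (norm_add_le _ _).trans ?_
  rw [norm_smul, norm_smul, Real.norm_eq_abs, Real.norm_eq_abs, abs_mul, abs_mul]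
  have e2 := hd v
  have e3 : |(-(2 : ℝ)⁻¹)| = 1 / 2 := by rw [abs_neg, abs_of_pos] <;> norm_num
  rw [e3]
  have e4 : |m| * (1 / 2 * |dPh β γ z v|) * ‖z‖ ≤ 72 * ω * ‖v‖ := by
    have : |m| * (1 / 2 * |dPh β γ z v|) * ‖z‖ = (|m| / 2) * (|dPh β γ z v| * ‖z‖) := by ring
    rw [this]
    have h5 : |m| / 2 ≤ 1 := by linarith
    have h6 : 0 ≤ |dPh β γ z v| * ‖z‖ := by positivity
    nlinarith
  have e5 : |m - 1| * ‖v‖ ≤ 11 * ω * ‖v‖ := mul_le_mul_of_nonneg_right hm (norm_nonneg _)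
  have e6 := mul_nonneg hω0 (norm_nonneg v)
  nlinarith

theorem est_global {ε : ℝ} {β γ : ℝ → ℝ} (h : SP ε β γ) (hε : ε ≤ 1 / 12) {z : V2} (hz : z ≠ 0) :
    ‖dK β γ z - ContinuousLinearMap.id ℝ V2‖ ≤ 100 * ε :=
  (est h hz (s := min (tt z) (min (tt z + γ (tt z)) (tt (FE z) + γ (tt z)))) hε
    (fun t _ => h.b.bd t) (fun t _ => h.c.bd t) (min_le_left _ _)
    ((min_le_right _ _).trans (min_le_left _ _)) ((min_le_right _ _).trans (min_le_right _ _))).2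

theorem est_local {ε : ℝ} {β γ : ℝ → ℝ} (h : SP ε β γ) (hε : ε ≤ 1 / 100) {z : V2} (hz : z ≠ 0)
    {A : ℝ} (hA : 24 ≤ A) (hz2 : A ≤ tt z) :
    |Real.exp (-(Ph β γ z) / 2) - 1| ≤ 100 * (4 * ε / (A / 2 - 11)) ∧
      ‖dK β γ z - ContinuousLinearMap.id ℝ V2‖ ≤ 100 * (4 * ε / (A / 2 - 11)) := by
  have hε0 : 0 ≤ ε := (abs_nonneg _).trans (h.b.bd 0)
  have hs : 1 ≤ A / 2 - 11 := by linarith
  have hd : ∀ β', Slow ε β' → ∀ t, A / 2 - 11 ≤ t → |deriv β' t| ≤ 4 * ε / (A / 2 - 11) := by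
    intro β' h' t ht
    rw [le_div_iff₀ (by linarith)]
    have h1 := h'.dec t (by linarith)
    have h2 := abs_nonneg (deriv β' t)
    nlinarith
  have hγ := h.c.abs_le (t := tt z) (by linarith)
  have hγ2 := neg_abs_le (γ (tt z))
  have hγ3 : ε * tt z ≤ 1 / 2 * tt z := mul_le_mul_of_nonneg_right (by linarith) (by linarith)
  have h4 := tt_FE hz
  rw [abs_le] at h4
  refine est h hz ?_ (hd β h.b) (hd γ h.c) (by linarith) (by linarith) (by linarith)
  rw [div_le_iff₀ (by linarith)]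
  linarith

theorem kE_deriv0 {ε : ℝ} {β γ : ℝ → ℝ} (h : SP ε β γ) (hε : ε ≤ 1 / 100) :
    HasFDerivAt (kE h) (ContinuousLinearMap.id ℝ V2) 0 := by
  have hε0 : 0 ≤ ε := (abs_nonneg _).trans (h.b.bd 0)
  refine HasFDerivAt.of_isLittleO ?_
  rw [Asymptotics.isLittleO_iff]
  intro c hc
  filter_upwards [tt_large (max 24 (2 * (400 * ε / c + 11)))] with w hw
  rcases eq_or_ne w 0 with rfl | hw0
  · simp
  have hA := hw hw0
  have h1 := (est_local h hε hw0 (le_max_left _ _) hA).1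
  have h2 : 100 * (4 * ε / (max 24 (2 * (400 * ε / c + 11)) / 2 - 11)) ≤ c := by
    have e1 : 400 * ε / c ≤ max 24 (2 * (400 * ε / c + 11)) / 2 - 11 := by
      have := le_max_right 24 (2 * (400 * ε / c + 11))
      linarith
    have e2 : 0 < max 24 (2 * (400 * ε / c + 11)) / 2 - 11 := by
      have := le_max_left 24 (2 * (400 * ε / c + 11))
      linarith
    rw [← mul_div_assoc, div_le_iff₀ e2]
    rw [div_le_iff₀ hc] at e1
    linarith
  rw [kE_zero, sub_zero, sub_zero, kE_eq]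
  have h3 : Real.exp (-(Ph β γ w) / 2) • w - ContinuousLinearMap.id ℝ V2 w
      = (Real.exp (-(Ph β γ w) / 2) - 1) • w := by
    rw [sub_smul, one_smul]; rfl
  rw [h3, norm_smul, Real.norm_eq_abs]
  exact mul_le_mul_of_nonneg_right (h1.trans h2) (norm_nonneg _)

theorem Ph_smooth {ε : ℝ} {β γ : ℝ → ℝ} (h : SP ε β γ) {z : V2} (hz : z ≠ 0) :
    ContDiffAt ℝ 1 (Ph β γ) z := by
  have h1 : ContDiffAt ℝ 1 (fun z => γ (tt z)) z := h.c.cd.contDiffAt.comp z (tt_smooth hz)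
  have h2 : ContDiffAt ℝ 1 (fun z => tt (FE z)) z :=
    ContDiffAt.comp (g := tt) (f := FE) z (tt_smooth (FE_ne hz)) FE_smooth.contDiffAt
  have h3 : ContDiffAt ℝ 1 (fun z => β (tt (FE z) + γ (tt z))) z :=
    h.b.cd.contDiffAt.comp z (h2.add h1)
  exact h1.add h3

theorem kE_fderiv {ε : ℝ} {β γ : ℝ → ℝ} (h : SP ε β γ) {z : V2} (hz : z ≠ 0) :
    fderiv ℝ (kE h) z = dK β γ z := (kE_deriv h hz).fderiv

theorem kE_fderiv0 {ε : ℝ} {β γ : ℝ → ℝ} (h : SP ε β γ) (hε : ε ≤ 1 / 100) :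
    fderiv ℝ (kE h) 0 = ContinuousLinearMap.id ℝ V2 := (kE_deriv0 h hε).fderiv

theorem kE_smooth {ε : ℝ} {β γ : ℝ → ℝ} (h : SP ε β γ) (hε : ε ≤ 1 / 100) :
    ContDiff ℝ 1 (kE h) := by
  have hε0 : 0 ≤ ε := (abs_nonneg _).trans (h.b.bd 0)
  rw [contDiff_one_iff_fderiv]
  refine ⟨fun z => ?_, ?_⟩
  · rcases eq_or_ne z 0 with rfl | hz
    · exact (kE_deriv0 h hε).differentiableAt
    · exact (kE_deriv h hz).differentiableAt
  · rw [continuous_iff_continuousAt]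
    intro z
    rcases eq_or_ne z 0 with rfl | hz
    · rw [ContinuousAt, Metric.tendsto_nhds]
      intro c hc
      filter_upwards [tt_large (max 24 (2 * (800 * ε / c + 11)))] with w hw
      rcases eq_or_ne w 0 with rfl | hw0
      · simpa using hc
      have hA := hw hw0
      have h1 := (est_local h hε hw0 (le_max_left _ _) hA).2
      have h2 : 100 * (4 * ε / (max 24 (2 * (800 * ε / c + 11)) / 2 - 11)) ≤ c / 2 := by
        have e1 : 800 * ε / c ≤ max 24 (2 * (800 * ε / c + 11)) / 2 - 11 := by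
          have := le_max_right 24 (2 * (800 * ε / c + 11))
          linarith
        have e2 : 0 < max 24 (2 * (800 * ε / c + 11)) / 2 - 11 := by
          have := le_max_left 24 (2 * (800 * ε / c + 11))
          linarith
        rw [← mul_div_assoc, div_le_iff₀ e2]
        rw [div_le_iff₀ hc] at e1
        linarith
      rw [dist_eq_norm, kE_fderiv0 h hε, kE_fderiv h hw0]
      linarith
    · have h1 : ContDiffAt ℝ 1 (kE h) z := by
        have e1 : (kE h : V2 → V2) = fun z => Real.exp (-(Ph β γ z) / 2) • z := funext (kE_eq h)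
        rw [e1]
        exact (((Ph_smooth h hz).neg).div_const 2).exp.smul contDiffAt_id
      exact (h1.fderiv_right (m := 0) (by norm_num)).continuousAt

theorem kE_small {ε : ℝ} {β γ : ℝ → ℝ} (h : SP ε β γ) (hε : ε ≤ 1 / 100) (z : V2) :
    ‖fderiv ℝ (kE h) z - ContinuousLinearMap.id ℝ V2‖ ≤ 100 * ε := by
  rcases eq_or_ne z 0 with rfl | hz
  · rw [kE_fderiv0 h hε, sub_self, norm_zero]
    have hε0 : 0 ≤ ε := (abs_nonneg _).trans (h.b.bd 0)
    positivity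
  · rw [kE_fderiv h hz]
    exact est_global h (by linarith) hz

theorem kE_symm_smooth {ε : ℝ} {β γ : ℝ → ℝ} (h : SP ε β γ) (hε : ε ≤ 1 / 200) :
    ContDiff ℝ 1 (kE h).symm := by
  obtain ⟨e, he, hes⟩ := exists_inverse (kE h) (kE_smooth h (by linarith)) (fun z =>
    (kE_small h (by linarith) z).trans (by linarith))
  have : e = kE h := Equiv.ext he
  rwa [this] at hes

theorem kE_Sml {ε : ℝ} {β γ : ℝ → ℝ} (h : SP ε β γ) (hε : ε ≤ 1 / 200) :
    Sml (1 / 16) (100 * ε) (kE h) :=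
  ⟨kE_smooth h (by linarith), kE_symm_smooth h hε, fun _ hz => kE_off h hz,
    kE_small h (by linarith), kE_zero h⟩

end Pool.Agent.H365R5
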