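import Mathlib
import Pool.Agent.H365R5.Rig

set_option autoImplicit false

open scoped Manifold ContDiff Topology
open Set Filter

noncomputable section

namespace Pool.Agent.H365R5

open Pool.Agent.H365R3 Pool.Agent.H365R4

theorem FTi_E2 (z : V2) : FT⁻¹ (E2 z) = E2 (FE.symm z) := by
  have h1 : FT (E2 (FE.symm z)) = E2 z := by rw [FT_E2, FE.apply_symm_apply]
  rw [← h1, d1_self_inv]

theorem FTpow_succ (n : ℤ) (X : T2) : (FT ^ (n + 1)) X = (FT ^ n) (FT X) := by
  rw [zpow_add_one]; rfl

theorem FTpow_pred (n : ℤ) (X : T2) : (FT ^ (n - 1)) X = (FT ^ n) (FT⁻¹ X) := by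
  rw [zpow_sub_one]; rfl

theorem MM_down (a b : ℤ) (z : V2) : MM a b z = MM ((b - 3 * a : ℤ) : ℝ) a (FE z) := by
  ext <;> simp [MM, FE_apply] <;> ring

theorem MM_up (a b : ℤ) (z : V2) : MM a b z = MM b ((a + 3 * b : ℤ) : ℝ) (FE.symm z) := by
  ext <;> simp [MM, FE_apply, FE_symm_apply] <;> ring

theorem FEs_smul (c : ℝ) (z : V2) : FE.symm (c • z) = c • FE.symm z := FI.map_smul c z

/-- The units of `ℤ[F]`. -/
theorem units (N : ℕ) : ∀ a b : ℤ, |a| + |b| ≤ N →
    (a ^ 2 + 3 * a * b - b ^ 2 = 1 ∨ a ^ 2 + 3 * a * b - b ^ 2 = -1) →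
    ∃ (n : ℤ) (s : ℝ), (s = 1 ∨ s = -1) ∧ ∀ z, E2 (MM a b z) = (FT ^ n) (E2 (s • z)) := by
  induction N with
  | zero =>
    intro a b hab h
    exfalso
    have h1 : |a| = 0 := by
      have := abs_nonneg a; have := abs_nonneg b; push_cast at hab; omega
    have h2 : |b| = 0 := by
      have := abs_nonneg a; have := abs_nonneg b; push_cast at hab; omega
    rw [abs_eq_zero] at h1 h2
    subst h1; subst h2
    simp at h
  | succ N ih =>
    intro a b hab h
    have down : |b - 3 * a| + |a| < |a| + |b| → ∃ (n : ℤ) (s : ℝ), (s = 1 ∨ s = -1) ∧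
        ∀ z, E2 (MM a b z) = (FT ^ n) (E2 (s • z)) := by
      intro hlt
      obtain ⟨n, s, hs, hn⟩ := ih (b - 3 * a) a (by push_cast at hab; omega) (by
        rcases h with h | h
        · right; linear_combination -h
        · left; linear_combination -h)
      refine ⟨n + 1, s, hs, fun z => ?_⟩
      rw [MM_down, hn, FTpow_succ, ← FE_smul, FT_E2]
    have up : |b| + |a + 3 * b| < |a| + |b| → ∃ (n : ℤ) (s : ℝ), (s = 1 ∨ s = -1) ∧
        ∀ z, E2 (MM a b z) = (FT ^ n) (E2 (s • z)) := by
      intro hlt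
      obtain ⟨n, s, hs, hn⟩ := ih b (a + 3 * b) (by push_cast at hab; omega) (by
        rcases h with h | h
        · right; linear_combination -h
        · left; linear_combination -h)
      refine ⟨n - 1, s, hs, fun z => ?_⟩
      rw [MM_up, hn, FTpow_pred, ← FEs_smul, FTi_E2]
    rcases lt_trichotomy a 0 with ha | ha | ha
    · rcases lt_trichotomy b 0 with hb | hb | hb
      · -- both negative
        apply down
        have h1 : b - 3 * a ≤ 0 := by
          by_contra hcon
          push Not at hcon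
          rcases h with h | h <;> nlinarith
        rw [abs_of_nonpos h1, abs_of_neg ha, abs_of_neg hb]
        linarith
      · subst hb
        have h1 : a = -1 := by
          rcases h with h | h <;> nlinarith
        subst h1
        refine ⟨0, -1, Or.inr rfl, fun z => ?_⟩
        rw [zpow_zero, d1_one_apply]
        congr 1
        ext <;> simp [MM]
      · apply up
        have h2 : a + 3 * b ≤ 0 := by
          by_contra hcon
          push Not at hcon
          rcases h with h | h <;> nlinarith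
        rw [abs_of_nonpos h2, abs_of_neg ha, abs_of_pos hb]
        linarith
    · subst ha
      have h1 : b = 1 ∨ b = -1 := by
        have : b ^ 2 = 1 := by rcases h with h | h <;> nlinarith
        exact sq_eq_one_iff.1 this
      rcases h1 with h1 | h1
      · subst h1
        refine ⟨1, 1, Or.inl rfl, fun z => ?_⟩
        rw [zpow_one, FT_E2]
        congr 1
        ext <;> simp [MM]
      · subst h1
        refine ⟨1, -1, Or.inr rfl, fun z => ?_⟩
        rw [zpow_one, FT_E2]
        congr 1
        ext <;> simp [MM, FE_apply] <;> ring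
    · rcases lt_trichotomy b 0 with hb | hb | hb
      · apply up
        have h2 : 0 ≤ a + 3 * b := by
          by_contra hcon
          push Not at hcon
          rcases h with h | h <;> nlinarith
        rw [abs_of_nonneg h2, abs_of_pos ha, abs_of_neg hb]
        linarith
      · subst hb
        have h1 : a = 1 := by
          rcases h with h | h <;> nlinarith
        subst h1
        refine ⟨0, 1, Or.inl rfl, fun z => ?_⟩
        rw [zpow_zero, d1_one_apply]
        congr 1
        ext <;> simp [MM]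
      · apply down
        have h1 : 0 ≤ b - 3 * a := by
          by_contra hcon
          push Not at hcon
          rcases h with h | h <;> nlinarith
        rw [abs_of_nonneg h1, abs_of_pos ha, abs_of_pos hb]
        linarith

theorem MM_MM (a b a' b' : ℝ) (z : V2) :
    MM a' b' (MM a b z) = MM (a * a' + b * b') (a * b' + a' * b + 3 * b * b') z := by
  ext <;> simp only [MM, FE_apply, Prod.fst_add, Prod.snd_add, Prod.smul_fst, Prod.smul_snd,
    smul_eq_mul] <;> ring

theorem MM_addv (a b : ℝ) (z w : V2) : MM a b (z + w) = MM a b z + MM a b w := by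
  simp only [MM, FE_add, smul_add]; abel

/-- Homeomorphisms of the torus commuting with `FT`. -/
theorem rigid (G G' : T2 → T2) (hG : Continuous G) (hG' : Continuous G')
    (hGG : ∀ X, G' (G X) = X) (hGG' : ∀ X, G (G' X) = X)
    (hc : ∀ X, G (FT X) = FT (G X)) :
    ∃ (a b : ℤ) (c : V2) (n : ℤ) (s : ℝ), (s = 1 ∨ s = -1) ∧ ¬ (a = 0 ∧ b = 0) ∧
      (∀ z, G (E2 z) = E2 (MM a b z + c)) ∧ ∀ z, E2 (MM a b z) = (FT ^ n) (E2 (s • z)) := by
  have hc' : ∀ X, G' (FT X) = FT (G' X) := by
    intro X
    have h1 := hc (G' X)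
    rw [hGG'] at h1
    rw [← h1, hGG]
  obtain ⟨a, b, c, h⟩ := affine G hG hc
  obtain ⟨a', b', c', h'⟩ := affine G' hG' hc'
  -- the composition
  obtain ⟨m, hm⟩ := const_of_ofZ (fun z => MM a' b' (MM a b z + c) + c' - z) (by
      have h1 : ∀ a b : ℝ, Continuous (MM a b) := fun a b =>
        (continuous_id.const_smul a).add (FE_smooth.continuous.const_smul b)
      exact (((h1 _ _).comp ((h1 _ _).add continuous_const)).add continuous_const).sub
        continuous_id) (fun z => by
      have h1 : E2 (MM a' b' (MM a b z + c) + c') = E2 z := by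
        rw [← h', ← h, hGG]
      obtain ⟨k, hk⟩ := (E2_eq_iff _ _).1 h1
      exact ⟨k, by rw [hk]; abel⟩)
  have h2 : ∀ z, MM a' b' (MM a b z) = z := by
    intro z
    have e1 := hm z
    have e2 := hm 0
    beta_reduce at e1 e2
    rw [MM_addv] at e1 e2
    have e3 : MM (a : ℝ) b 0 = 0 := by simp [MM, FE_zero]
    have e4 : MM (a' : ℝ) b' 0 = 0 := by simp [MM, FE_zero]
    rw [e3, e4, zero_add, sub_zero] at e2
    rw [← e2] at e1
    have : MM a' b' (MM a b z) - z = 0 := by
      have e5 : MM a' b' (MM a b z) - z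
        = (MM a' b' (MM a b z) + MM a' b' c + c' - z) - (MM a' b' c + c') := by abel
      rw [e5, e1, sub_self]
    exact sub_eq_zero.1 this
  have h3 := h2 (1, 0)
  rw [MM_MM] at h3
  have h4 := congrArg Prod.snd h3
  have h5 := congrArg Prod.fst h3
  simp only [MM, FE_apply, Prod.fst_add, Prod.snd_add, Prod.smul_fst, Prod.smul_snd,
    smul_eq_mul, mul_zero, mul_one, zero_add, add_zero] at h4 h5
  rw [h4, zero_mul, add_zero] at h5
  have k1 : a * b' + a' * b + 3 * b * b' = 0 := by exact_mod_cast h4
  have k2 : a * a' + b * b' = 1 := by exact_mod_cast h5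
  have k3 : (a ^ 2 + 3 * a * b - b ^ 2) * (a' ^ 2 + 3 * a' * b' - b' ^ 2) = 1 := by
    have : (a ^ 2 + 3 * a * b - b ^ 2) * (a' ^ 2 + 3 * a' * b' - b' ^ 2)
      = (a * a' + b * b') ^ 2 + 3 * (a * a' + b * b') * (a * b' + a' * b + 3 * b * b')
        - (a * b' + a' * b + 3 * b * b') ^ 2 := by ring
    rw [this, k1, k2]; ring
  have k4 : (a ^ 2 + 3 * a * b - b ^ 2 = 1 ∨ a ^ 2 + 3 * a * b - b ^ 2 = -1) :=
    Int.isUnit_iff.1 (IsUnit.of_mul_eq_one _ k3)
  obtain ⟨n, s, hs, hn⟩ := units (|a| + |b|).toNat a b (by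
    rw [Int.toNat_of_nonneg (by positivity)]) k4
  refine ⟨a, b, c, n, s, hs, ?_, h, hn⟩
  rintro ⟨rfl, rfl⟩
  simp at k4

end Pool.Agent.H365R5
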