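import Mathlib
import Pool.Agent.H365R5.Cnv
import Pool.Agent.H365R5.Rad
import Pool.Agent.H365R5.Unt

set_option autoImplicit false

open scoped Manifold ContDiff Topology
open Set Filter Bundle

noncomputable section

namespace Pool.Agent.H365R5

open Pool.Agent.H365R3 Pool.Agent.H365R4

/-! ### Lifting maps supported near a point of the torus -/

theorem lf_in (t : V2) (K : V2 → V2) {z : V2} (hz : ‖z‖ < 1 / 2) :
    liftF (cht2 t) K (E2 (t + z)) = E2 (t + K z) := by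
  have h1 := mem_tgt2_of_norm t hz
  have h2 : E2 (t + z) ∈ (cht2 t).src := (cht2 t).ψ_mem z h1
  rw [liftF_src _ K h2, ψ2_eq]
  have h3 : (cht2 t).φ (E2 (t + z)) = z := (cht2 t).φψ z h1
  rw [h3]

theorem lf_out (t : V2) (K : V2 → V2) {X : T2} (h : ∀ z, X = E2 (t + z) → K z = z) :
    liftF (cht2 t) K X = X := by
  by_cases hX : X ∈ (cht2 t).src
  · rw [liftF_src _ K hX, h _ (cht2_φ t X).symm, (cht2 t).ψφ X hX]
  · exact liftF_not _ K hX

/-- Maps supported in the small ball. -/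
structure Spt (K : V2 → V2) : Prop where
  off : ∀ z, 1 / 16 ≤ ‖z‖ → K z = z
  mem : ∀ z, ‖z‖ < 1 / 16 → ‖K z‖ < 1 / 16

theorem Spt.of (K : V2 ≃ V2) (h : ∀ z, 1 / 16 ≤ ‖z‖ → K z = z) : Spt K :=
  ⟨h, fun _ hz => norm_lt_of_off h hz⟩

theorem hr_Spt {ε : ℝ} {β γ : ℝ → ℝ} (h : SP ε β γ) : Spt (hr β) :=
  Spt.of (hE h) fun _ hz => hr_off' h.b hz

theorem kE_Spt {ε : ℝ} {β γ : ℝ → ℝ} (h : SP ε β γ) : Spt (kE h) :=
  Spt.of (kE h) fun _ hz => kE_off h hz

/-- `X` is not near `t`. -/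
def Far (t : V2) (X : T2) : Prop := ∀ z, X = E2 (t + z) → 1 / 16 ≤ ‖z‖

theorem near_or_far (t : V2) (X : T2) : (∃ z, ‖z‖ < 1 / 16 ∧ X = E2 (t + z)) ∨ Far t X := by
  by_cases h : ∃ z, ‖z‖ < 1 / 16 ∧ X = E2 (t + z)
  · exact Or.inl h
  · right
    intro z hz
    by_contra hcon
    exact h ⟨z, not_le.1 hcon, hz⟩

theorem Spt.far {K : V2 → V2} (hK : Spt K) {t : V2} {X : T2} (h : Far t X) :
    liftF (cht2 t) K X = X := lf_out t K fun z hz => hK.off z (h z hz)

theorem Spt.near {K : V2 → V2} (t : V2) {z : V2} (hz : ‖z‖ < 1 / 16) :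
    liftF (cht2 t) K (E2 (t + z)) = E2 (t + K z) := lf_in t K (by linarith)

/-- The balls around `t` and `t'` are disjoint. -/
def Sep (t t' : V2) : Prop := ∀ z, ‖z‖ < 1 / 16 → Far t' (E2 (t + z))

theorem Sep.symm {t t' : V2} (h : Sep t t') : Sep t' t := by
  intro z hz w hw
  by_contra hcon
  have := h w (not_le.1 hcon) z hw.symm
  linarith

theorem comm {t t' : V2} (hs : Sep t t') {K K' : V2 → V2} (hK : Spt K) (hK' : Spt K') (X : T2) :
    liftF (cht2 t) K (liftF (cht2 t') K' X) = liftF (cht2 t') K' (liftF (cht2 t) K X) := by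
  rcases near_or_far t X with ⟨z, hz, rfl⟩ | h1
  · rw [hK'.far (hs z hz), Spt.near t hz, hK'.far (hs _ (hK.mem z hz))]
  · rw [hK.far h1]
    rcases near_or_far t' X with ⟨z, hz, rfl⟩ | h2
    · rw [Spt.near t' hz, hK.far (hs.symm _ (hK'.mem z hz))]
    · rw [hK'.far h2, hK.far h1]

theorem ball_tgt (t : V2) : Metric.closedBall (0 : V2) (1 / 16) ⊆ (cht2 t).tgt := by
  intro z hz
  rw [mem_closedBall_zero_iff] at hz
  exact mem_tgt2_of_norm t (by linarith)

theorem lf_cont (t : V2) {K : V2 → V2} (hK : Spt K) (hc : Continuous K) :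
    Continuous (liftF (cht2 t) K) := by
  rw [continuous_iff_continuousAt]
  intro x
  by_cases hx : x ∈ (cht2 t).src
  · have e : liftF (cht2 t) K =ᶠ[𝓝 x] fun y => (E2 (t + K ((cht2 t).φ y))) := by
      filter_upwards [(cht2 t).open_src.mem_nhds hx] with y hy using liftF_src (cht2 t) K hy
    refine ContinuousAt.congr ?_ e.symm
    have h1 : ContinuousAt (cht2 t).φ x := ((cht2 t).φ_at hx).continuousAt
    exact (E2_cont.comp (continuous_const.add hc)).continuousAt.comp h1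
  · have hcp : IsCompact ((cht2 t).ψ '' Metric.closedBall (0 : V2) (1 / 16)) :=
      (isCompact_closedBall (0 : V2) (1 / 16)).image_of_continuousOn
        ((cht2 t).smooth_ψ.continuousOn.mono (ball_tgt t))
    have hx' : x ∈ ((cht2 t).ψ '' Metric.closedBall (0 : V2) (1 / 16))ᶜ := by
      rintro ⟨z, hz, rfl⟩
      exact hx ((cht2 t).ψ_mem z (ball_tgt t hz))
    have e : liftF (cht2 t) K =ᶠ[𝓝 x] id := by
      filter_upwards [hcp.isClosed.isOpen_compl.mem_nhds hx'] with y hy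
      refine hK.far fun z hz => ?_
      by_contra hcon
      exact hy ⟨z, by simpa using (not_le.1 hcon).le, hz.symm⟩
    exact continuousAt_id.congr e.symm

/-! ### The conjugacy -/

theorem FEs_norm (z : V2) : ‖FE.symm z‖ ≤ 4 * ‖z‖ := by
  have := norm_le_FE (FE.symm z)
  rwa [FE.apply_symm_apply] at this

theorem conj1 {t : V2} (ht : E2 (FE t) = E2 t) {ε : ℝ} {β γ : ℝ → ℝ} (h : SP ε β γ) (X : T2) :
    FT (liftF (cht2 t) (kE h) (liftF (cht2 t) (hr β) X)) = liftF (cht2 t) (hr β) (FT X) := by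
  have hadd : ∀ w, E2 (FE (t + w)) = E2 (t + FE w) := by
    intro w; rw [FE_add, E2_add, ht, ← E2_add]
  rcases near_or_far t X with ⟨z, hz, rfl⟩ | h1
  · have h2 : ‖hr β z‖ < 1 / 16 := (hr_Spt h).mem z hz
    have h3 : kE h (hr β z) = FE.symm (hr β (FE z)) := by
      have : kE h (hr β z) = FE.symm (hr β (FE (hr γ (hr β z)))) := rfl
      rw [this, hr_hr h]
    rw [Spt.near t hz, Spt.near t h2, h3, FT_E2, FT_E2, hadd, hadd, FE.apply_symm_apply]
    rw [lf_in t]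
    have := norm_FE_le z
    linarith
  · rw [(hr_Spt h).far h1, (kE_Spt h).far h1]
    symm
    apply lf_out
    intro y hy
    apply hr_off h.b
    have h2 : X = E2 (t + FE.symm y) := by
      have e1 : FT (E2 (t + FE.symm y)) = FT X := by
        rw [FT_E2, hadd, FE.apply_symm_apply, hy]
      exact (FT.injective e1).symm
    have h3 := (tt_off (h1 _ h2)).2
    rwa [FE.apply_symm_apply] at h3

/-- The other singular point. -/
def pp : V2 := (1 / 3, 1 / 3)

theorem not_int {x : ℝ} {k : ℤ} (h : x = k) (h1 : 0 < x) (h2 : x < 1) : False := by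
  rw [h] at h1 h2
  have h3 : (0 : ℤ) < k := by exact_mod_cast h1
  have h4 : k < (1 : ℤ) := by exact_mod_cast h2
  omega

theorem sep_of {t t' : V2} (h1 : 1 / 3 ≤ t'.1 - t.1) (h2 : t'.1 - t.1 ≤ 2 / 3) : Sep t t' := by
  intro z hz w hw
  by_contra hcon
  push Not at hcon
  obtain ⟨k, hk⟩ := (E2_eq_iff _ _).1 hw
  have e := congrArg Prod.fst hk
  simp only [ofZ, Prod.fst_add] at e
  have a1 := (norm_fst_le z).trans_lt hz
  have a2 := (norm_fst_le w).trans_lt hcon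
  rw [Real.norm_eq_abs, abs_lt] at a1 a2
  refine not_int (x := t'.1 - t.1 + w.1 - z.1) (k := -k.1) ?_ ?_ ?_
  · push_cast; linarith
  · linarith
  · linarith

theorem sep01 : Sep 0 pp := sep_of (by norm_num [pp]) (by norm_num [pp])

theorem sep02 : Sep (-pp) 0 := sep_of (by norm_num [pp]) (by norm_num [pp])

theorem sep12 : Sep (-pp) pp := sep_of (by norm_num [pp]) (by norm_num [pp])

theorem Sep.ne {t t' : V2} (h : Sep t t') : E2 t ≠ E2 t' := by
  intro he
  have := h 0 (by simp) 0 (by rw [add_zero, add_zero, he])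
  rw [norm_zero] at this
  linarith

theorem fix0 : E2 (FE 0) = E2 0 := by rw [FE_zero]

theorem fix1 : E2 (FE pp) = E2 pp := by
  rw [E2_eq_iff]
  refine ⟨(1, 0), ?_⟩
  ext <;> simp [FE_apply, pp, ofZ] <;> norm_num

theorem fix2 : E2 (FE (-pp)) = E2 (-pp) := by
  rw [E2_eq_iff]
  refine ⟨(-1, 0), ?_⟩
  ext <;> simp [FE_apply, pp, ofZ] <;> norm_num

/-- The fixed points of `FT`. -/
theorem fixpts {X : T2} (h : FT X = X) : X = E2 0 ∨ X = E2 pp ∨ X = E2 (-pp) := by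
  obtain ⟨z, rfl⟩ := E2_surj X
  rw [FT_E2] at h
  obtain ⟨k, hk⟩ := (E2_eq_iff _ _).1 h
  have e1 := congrArg Prod.fst hk
  have e2 := congrArg Prod.snd hk
  simp only [FE_apply, ofZ, Prod.fst_add, Prod.snd_add] at e1 e2
  have e3 : z.1 = (k.1 + k.2) / 3 := by linarith
  have e4 : z.2 = (k.1 + k.2) / 3 - k.2 := by linarith
  obtain ⟨j, hj⟩ : ∃ j : ℤ, k.1 + k.2 = 3 * j ∨ k.1 + k.2 = 3 * j + 1 ∨ k.1 + k.2 = 3 * j - 1 := by
    refine ⟨(k.1 + k.2 + 1) / 3, ?_⟩
    omega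
  rcases hj with hj | hj | hj
  · left
    have hj' : (k.1 : ℝ) + k.2 = 3 * j := by exact_mod_cast hj
    rw [E2_eq_iff]
    refine ⟨(j, j - k.2), ?_⟩
    ext
    · simp only [ofZ, Prod.fst_add, Prod.fst_zero]; rw [e3, hj']; ring
    · simp only [ofZ, Prod.snd_add, Prod.snd_zero]; rw [e4, hj']; push_cast; ring
  · right; left
    have hj' : (k.1 : ℝ) + k.2 = 3 * j + 1 := by exact_mod_cast hj
    rw [E2_eq_iff]
    refine ⟨(j, j - k.2), ?_⟩
    ext
    · simp only [ofZ, Prod.fst_add, pp]; rw [e3, hj']; ring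
    · simp only [ofZ, Prod.snd_add, pp]; rw [e4, hj']; push_cast; ring
  · right; right
    have hj' : (k.1 : ℝ) + k.2 = 3 * j - 1 := by exact_mod_cast hj
    rw [E2_eq_iff]
    refine ⟨(j, j - k.2), ?_⟩
    ext
    · simp only [ofZ, Prod.fst_add, pp, Prod.fst_neg]; rw [e3, hj']; ring
    · simp only [ofZ, Prod.snd_add, pp, Prod.snd_neg]; rw [e4, hj']; push_cast; ring

section Sys

variable {ε : ℝ} {β γ β' γ' : ℝ → ℝ}

theorem kE_OK (t : V2) (h : SP ε β γ) (hε : ε ≤ 1 / 200) : LiftOK (cht2 t) (kE h) :=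
  (kE_Sml h hε).ok (cht2 t) (ball_tgt t)

/-- The perturbed diffeomorphism. -/
def fP (h : SP ε β γ) (h' : SP ε β' γ') (hε : ε ≤ 1 / 200) : T2 ≃ₘ^1⟮I2, I2⟯ T2 :=
  FT * (liftD (cht2 0) (kE h) (kE_OK 0 h hε) * liftD (cht2 pp) (kE h') (kE_OK pp h' hε))

/-- The conjugacy. -/
def HH (β β' : ℝ → ℝ) (X : T2) : T2 := liftF (cht2 0) (hr β) (liftF (cht2 pp) (hr β') X)

theorem fP_HH (h : SP ε β γ) (h' : SP ε β' γ') (hε : ε ≤ 1 / 200) (X : T2) :
    fP h h' hε (HH β β' X) = HH β β' (FT X) := by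
  have e1 : fP h h' hε (HH β β' X) = FT (liftF (cht2 0) (kE h) (liftF (cht2 pp) (kE h')
    (liftF (cht2 0) (hr β) (liftF (cht2 pp) (hr β') X)))) := rfl
  rw [e1, comm sep01.symm (kE_Spt h') (hr_Spt h), conj1 fix0, conj1 fix1]
  rfl

theorem HH_cont (h : SP ε β γ) (h' : SP ε β' γ') (hε : ε ≤ 1 / 200) : Continuous (HH β β') :=
  (lf_cont 0 (hr_Spt h) (hr_cont h.b (by linarith))).comp
    (lf_cont pp (hr_Spt h') (hr_cont h'.b (by linarith)))

theorem lf_left (t : V2) (h : SP ε β γ) (X : T2) :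
    liftF (cht2 t) (hr γ) (liftF (cht2 t) (hr β) X) = X := by
  rcases near_or_far t X with ⟨z, hz, rfl⟩ | h1
  · rw [Spt.near t hz, Spt.near t ((hr_Spt h).mem z hz), hr_hr h]
  · rw [(hr_Spt h).far h1, (hr_Spt h.symm).far h1]

theorem HH_left (h : SP ε β γ) (h' : SP ε β' γ') (X : T2) : HH γ γ' (HH β β' X) = X := by
  unfold HH
  rw [comm sep01.symm (hr_Spt h'.symm) (hr_Spt h), lf_left 0 h, lf_left pp h']

theorem HH_near (h : SP ε β γ) (h' : SP ε β' γ') {z : V2} (hz : ‖z‖ < 1 / 16) :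
    HH β β' (E2 (0 + z)) = E2 (0 + hr β z) ∧ HH β β' (E2 (pp + z)) = E2 (pp + hr β' z) ∧
      HH β β' (E2 (-pp + z)) = E2 (-pp + z) := by
  unfold HH
  refine ⟨?_, ?_, ?_⟩
  · rw [(hr_Spt h').far (sep01 z hz), Spt.near 0 hz]
  · rw [Spt.near pp hz, (hr_Spt h).far (sep01.symm _ ((hr_Spt h').mem z hz))]
  · rw [(hr_Spt h').far (sep12 z hz), (hr_Spt h).far (sep02 z hz)]

theorem fix_zpow (f : T2 ≃ₘ^1⟮I2, I2⟯ T2) {x : T2} (h : f x = x) (n : ℤ) : (f ^ n) x = x := by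
  induction n with
  | zero => rfl
  | succ n ih =>
    rw [zpow_add_one, d1_mul_apply, h]; exact ih
  | pred n ih =>
    have h1 : f⁻¹ x = x := by
      conv_lhs => rw [← h]
      exact d1_self_inv f x
    rw [zpow_sub_one, d1_mul_apply, h1]; exact ih

theorem fP_zpow (h : SP ε β γ) (h' : SP ε β' γ') (hε : ε ≤ 1 / 200) (n : ℤ) (X : T2) :
    (fP h h' hε ^ n) (HH β β' X) = HH β β' ((FT ^ n) X) := by
  induction n generalizing X with
  | zero => rfl
  | succ n ih =>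
    rw [zpow_add_one, zpow_add_one, d1_mul_apply, d1_mul_apply, fP_HH, ih]
  | pred n ih =>
    have h1 : (fP h h' hε)⁻¹ (HH β β' X) = HH β β' (FT⁻¹ X) := by
      have e1 := fP_HH h h' hε (FT⁻¹ X)
      rw [d1_inv_self] at e1
      rw [← e1, d1_self_inv]
    rw [zpow_sub_one, zpow_sub_one, d1_mul_apply, d1_mul_apply, h1, ih]

theorem fP_anosov (h : SP ε β γ) (h' : SP ε β' γ') (hε : ε ≤ 1 / 200) (hε' : ε ≤ 1 / 30000) :
    IsAnosov (fP h h' hε) := by
  have hδ : ∀ {β γ : ℝ → ℝ} (h : SP ε β γ) (z : V2),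
      ‖fderiv ℝ (kE h) z - ContinuousLinearMap.id ℝ V2‖ ≤ 1 / 300 := fun h z =>
    (kE_small h (by linarith) z).trans (by linarith)
  exact (cone_of _ _ _ rfl (vec_liftD 0 _ (by norm_num) (hδ h))
    (vec_liftD pp _ (by norm_num) (hδ h'))).anosov

end Sys

end Pool.Agent.H365R5
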