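import Mathlib
import Pool.Agent.H365R5.Tor

set_option autoImplicit false

open scoped Manifold ContDiff Topology
open Set Filter Bundle

noncomputable section

namespace Pool.Agent.H365R5

open Pool.Agent.H365R3 Pool.Agent.H365R4

/-! ### Nontrivial centralizers -/

theorem neg_E2 (z z' : V2) (h : E2 z = E2 z') : E2 (-z) = E2 (-z') := by
  obtain ⟨k, hk⟩ := (E2_eq_iff z z').1 h
  have : -z = -z' + ofZ (-k) := by
    rw [hk]
    have : ofZ (-k) = -ofZ k := by simp [ofZ]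
    rw [this]; abel
  rw [this, E2_ofZ]

/-- The involution `-1` of the torus. -/
def NT : T2 ≃ₘ^1⟮I2, I2⟯ T2 :=
  ofLift2 (Equiv.neg V2) contDiff_neg contDiff_neg neg_E2 neg_E2

theorem NT_E2 (z : V2) : NT (E2 z) = E2 (-z) := ofLift2_E2 _ _ _ _ _ z

theorem NT_FT : NT * FT = FT * NT := by
  apply Diffeomorph.ext
  intro X
  obtain ⟨z, rfl⟩ := E2_surj X
  rw [d1_mul_apply, d1_mul_apply, FT_E2, NT_E2, NT_E2, FT_E2]
  congr 1
  have := FE_smul (-1) z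
  rw [neg_one_smul, neg_one_smul] at this
  exact this.symm

section Sys

variable {ε : ℝ} {β γ β' γ' : ℝ → ℝ}

theorem hE_OK (t : V2) (h : SP ε β γ) (hε : ε ≤ 1 / 2) {s c : ℝ} (hs : 0 ≤ s)
    (hc : ∀ t, s ≤ t → β t = c) : LiftOK (cht2 t) (hE h) :=
  ⟨⟨1 / 16, ball_tgt t, fun _ hz => hr_off' h.b hz⟩, hr_smooth h.b hc,
    hr_smooth h.c (s := 2 * s) (c := -c) fun _ ht => h.const hε hs hc ht⟩

/-- If the profiles are eventually constant, the centralizer is not trivial. -/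
theorem nontrivial (h : SP ε β γ) (h' : SP ε β' γ') (hε : ε ≤ 1 / 200) {s c s' c' : ℝ}
    (hs : 0 ≤ s) (hc : ∀ t, s ≤ t → β t = c) (hs' : 0 ≤ s') (hc' : ∀ t, s' ≤ t → β' t = c') :
    ¬ TrivialCentralizer (fP h h' hε) := by
  intro htr
  obtain ⟨HD, hHD⟩ : ∃ HD : T2 ≃ₘ^1⟮I2, I2⟯ T2, ∀ X, HD X = HH β β' X :=
    ⟨liftD (cht2 0) (hE h) (hE_OK 0 h (by linarith) hs hc)
      * liftD (cht2 pp) (hE h') (hE_OK pp h' (by linarith) hs' hc'), fun X => rfl⟩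
  have hf : fP h h' hε = HD * FT * HD⁻¹ := by
    rw [eq_mul_inv_iff_mul_eq]
    apply Diffeomorph.ext
    intro X
    rw [d1_mul_apply, d1_mul_apply, hHD, hHD, fP_HH]
  obtain ⟨n, hn⟩ := htr (HD * NT * HD⁻¹) (by
    rw [hf]
    have e1 : HD * NT * HD⁻¹ * (HD * FT * HD⁻¹) = HD * (NT * FT) * HD⁻¹ := by group
    have e2 : HD * FT * HD⁻¹ * (HD * NT * HD⁻¹) = HD * (FT * NT) * HD⁻¹ := by group
    rw [e1, e2, NT_FT])
  have h1 : (HD * NT * HD⁻¹) (HH β β' (E2 pp)) = HH β β' (E2 (-pp)) := by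
    rw [← hHD, ← hHD, d1_mul_apply, d1_mul_apply, d1_self_inv, NT_E2]
  rw [hn, fP_zpow, fix_zpow FT (by rw [FT_E2, fix1])] at h1
  have h2 := congrArg (HH γ γ') h1
  rw [HH_left h h', HH_left h h'] at h2
  exact sep12.ne h2.symm

end Sys

/-! ### Convergence -/

theorem dK_agree {ε : ℝ} {β γ β' γ' : ℝ → ℝ} (h : SP ε β γ) (h' : SP ε β' γ')
    (hβ : ∀ t, 0 ≤ β t) {n : ℝ} (hag : ∀ t ≤ n, β' t = β t) {z : V2} (hz : z ≠ 0)
    (hn : tt z < n - 11) : dK β' γ' z = dK β γ z := by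
  have hγ : ∀ t ≤ n, γ' t = γ t := fun t ht => h.agree h' hβ hag ht
  have h1 := tt_FE hz
  rw [abs_le] at h1
  have h2 := h.nonpos hβ (tt z)
  have e1 : γ' (tt z) = γ (tt z) := hγ _ (by linarith)
  have e2 : deriv γ' (tt z) = deriv γ (tt z) := by
    apply Filter.EventuallyEq.deriv_eq
    filter_upwards [Iio_mem_nhds (show tt z < n by linarith)] with t ht using hγ t ht.le
  have h3 : tt (FE z) + γ (tt z) < n := by linarith
  have e3 : β' (tt (FE z) + γ (tt z)) = β (tt (FE z) + γ (tt z)) := hag _ h3.le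
  have e4 : deriv β' (tt (FE z) + γ (tt z)) = deriv β (tt (FE z) + γ (tt z)) := by
    apply Filter.EventuallyEq.deriv_eq
    filter_upwards [Iio_mem_nhds h3] with t ht using hag t ht.le
  have e5 : Ph β' γ' z = Ph β γ z := by unfold Ph; rw [e1, e3]
  have e6 : dPh β' γ' z = dPh β γ z := by unfold dPh; rw [e1, e2, e4]
  unfold dK
  rw [e5, e6]

theorem kE_close {ε : ℝ} {β γ : ℝ → ℝ} (h : SP ε β γ) (hβ : ∀ t, 0 ≤ β t) (hε : ε ≤ 1 / 200)
    (β' γ' : ℕ → ℝ → ℝ) (h' : ∀ n, SP ε (β' n) (γ' n))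
    (hag : ∀ n : ℕ, ∀ t ≤ (n : ℝ) + 35, β' n t = β t) (n : ℕ) (z : V2) :
    ‖fderiv ℝ (kE (h' n)) z - fderiv ℝ (kE h) z‖ ≤ 1600 * ε / (n + 2) := by
  have hε0 : 0 ≤ ε := (abs_nonneg _).trans (h.b.bd 0)
  have hn0 : (0 : ℝ) ≤ n := Nat.cast_nonneg n
  rcases eq_or_ne z 0 with rfl | hz
  · rw [kE_fderiv0 h (by linarith), kE_fderiv0 (h' n) (by linarith), sub_self, norm_zero]
    positivity
  rw [kE_fderiv h hz, kE_fderiv (h' n) hz]
  rcases lt_or_ge (tt z) ((n : ℝ) + 35 - 11) with h1 | h1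
  · rw [dK_agree h (h' n) hβ (hag n) hz h1, sub_self, norm_zero]
    positivity
  · have a1 := (est_local h (by linarith) hz (A := (n : ℝ) + 24) (by linarith) (by linarith)).2
    have a2 := (est_local (h' n) (by linarith) hz (A := (n : ℝ) + 24) (by linarith)
      (by linarith)).2
    have e1 : dK (β' n) (γ' n) z - dK β γ z = (dK (β' n) (γ' n) z - ContinuousLinearMap.id ℝ V2)
        - (dK β γ z - ContinuousLinearMap.id ℝ V2) := by abel
    rw [e1]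
    refine (norm_sub_le _ _).trans ((add_le_add a2 a1).trans (le_of_eq ?_))
    have e2 : ((n : ℝ) + 24) / 2 - 11 = (n + 2) / 2 := by ring
    rw [e2]
    field_simp
    ring

theorem fP_tendsto {ε : ℝ} {β γ β₁ γ₁ : ℝ → ℝ} (h : SP ε β γ) (h₁ : SP ε β₁ γ₁)
    (hβ : ∀ t, 0 ≤ β t) (hβ₁ : ∀ t, 0 ≤ β₁ t) (hε : ε ≤ 1 / 200)
    (β' γ' β₁' γ₁' : ℕ → ℝ → ℝ) (h' : ∀ n, SP ε (β' n) (γ' n)) (h₁' : ∀ n, SP ε (β₁' n) (γ₁' n))
    (hag : ∀ n : ℕ, ∀ t ≤ (n : ℝ) + 35, β' n t = β t)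
    (hag₁ : ∀ n : ℕ, ∀ t ≤ (n : ℝ) + 35, β₁' n t = β₁ t) :
    Tendsto (fun n => fP (h' n) (h₁' n) hε) atTop (𝓝 (fP h h₁ hε)) := by
  have hlim : Tendsto (fun n : ℕ => 1600 * ε / ((n : ℝ) + 2)) atTop (𝓝 0) := by
    apply Tendsto.const_div_atTop
    exact tendsto_atTop_add_const_right _ _ tendsto_natCast_atTop_atTop
  have t1 := tendsto_liftD2 (cht2 0) (1 / 16) (ball_tgt 0) (fun n => kE (h' n)) (kE h) _ hlim
    (fun n => kE_OK 0 (h' n) hε) (kE_OK 0 h hε) (fun n z hz => kE_off (h' n) hz)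
    (fun z hz => kE_off h hz) (fun n => kE_zero (h' n)) (kE_zero h)
    (kE_close h hβ hε β' γ' h' hag)
  have t2 := tendsto_liftD2 (cht2 pp) (1 / 16) (ball_tgt pp) (fun n => kE (h₁' n)) (kE h₁) _ hlim
    (fun n => kE_OK pp (h₁' n) hε) (kE_OK pp h₁ hε) (fun n z hz => kE_off (h₁' n) hz)
    (fun z hz => kE_off h₁ hz) (fun n => kE_zero (h₁' n)) (kE_zero h₁)
    (kE_close h₁ hβ₁ hε β₁' γ₁' h₁' hag₁)
  haveI : LocallyConnectedSpace (ModelProd (EuclideanSpace ℝ (Fin 1)) (EuclideanSpace ℝ (Fin 1))) :=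
    inferInstanceAs (LocallyConnectedSpace (EuclideanSpace ℝ (Fin 1) × EuclideanSpace ℝ (Fin 1)))
  haveI : IsTopologicalGroup (T2 ≃ₘ^1⟮I2, I2⟯ T2) := d1TopGroup
  exact (t1.mul t2).const_mul FT

end Pool.Agent.H365R5
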