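import Mathlib
import Pool.Agent.H365R5.Apx

set_option autoImplicit false

open scoped Manifold ContDiff Topology
open Set Filter Bundle

noncomputable section

namespace Pool.Agent.H365R5

open Pool.Agent.H365R3 Pool.Agent.H365R4

theorem lip (g : T2 ≃ₘ^1⟮I2, I2⟯ T2) {q q' : V2} (hg : g (E2 q) = E2 q') :
    ∃ C : ℝ, 0 < C ∧ ∀ᶠ w in 𝓝 (0 : V2), ∃ u, g (E2 (q + w)) = E2 (q' + u) ∧ ‖u‖ ≤ C * ‖w‖ := by
  obtain ⟨G, hG⟩ : ∃ G : V2 → V2, G = fun w => (cht2 q').φ (g (E2 (q + w))) := ⟨_, rfl⟩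
  have hGd : DifferentiableAt ℝ G 0 := by
    have h1 : ContMDiffAt 𝓘(ℝ, V2) 𝓘(ℝ, V2) 1 G 0 := by
      have e1 : ContMDiff 𝓘(ℝ, V2) 𝓘(ℝ, V2) 1 (fun w : V2 => q + w) :=
        (contDiff_const.add contDiff_id).contMDiff
      have e2 : ContMDiff 𝓘(ℝ, V2) I2 1 (fun w => g (E2 (q + w))) :=
        g.contMDiff.comp (E2_smooth.comp e1)
      have e3 : ContMDiffAt I2 𝓘(ℝ, V2) 1 (cht2 q').φ (g (E2 (q + 0))) := by
        rw [add_zero, hg]; exact (cht2 q').φ_at (mem_src2 q')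
      rw [hG]
      exact ContMDiffAt.comp (g := (cht2 q').φ) (f := fun w => g (E2 (q + w))) 0 e3
        e2.contMDiffAt
    exact h1.contDiffAt.differentiableAt one_ne_zero
  have h0 : G 0 = 0 := by rw [hG]; beta_reduce; rw [add_zero, hg, φ2_zero]
  obtain ⟨C, hC, hb⟩ := hGd.hasFDerivAt.isBigO_sub.exists_pos
  rw [Asymptotics.isBigOWith_iff] at hb
  refine ⟨C, hC, ?_⟩
  filter_upwards [hb] with w hw
  refine ⟨G w, ?_, ?_⟩
  · rw [hG]; exact (cht2_φ q' _).symm
  · simpa [h0] using hw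

theorem MM_cont (a b : ℝ) : Continuous (MM a b) :=
  (continuous_id.const_smul a).add (FE_smooth.continuous.const_smul b)

theorem MM_smul (a b x : ℝ) (z : V2) : MM a b (x • z) = x • MM a b z := by
  simp only [MM, FE_smul, smul_add, smul_comm x]

theorem MM_zero (a b : ℝ) : MM a b 0 = 0 := by simp [MM, FE_zero]

theorem sing {ε : ℝ} {H G : T2 → T2} {b b' : ℝ → ℝ} {q q' : V2} (hb : Slow ε b) (hb' : Slow ε b')
    (hε : ε ≤ 1 / 2) (hL : ∀ z, ‖z‖ < 1 / 16 → H (E2 (q + z)) = E2 (q + hr b z))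
    (hL' : ∀ z, ‖z‖ < 1 / 16 → H (E2 (q' + z)) = E2 (q' + hr b' z))
    (g : T2 ≃ₘ^1⟮I2, I2⟯ T2) (hgG : ∀ X, g (H X) = H (G X)) (a₁ a₂ : ℤ)
    (hne : ¬ (a₁ = 0 ∧ a₂ = 0)) (hG : ∀ z, G (E2 (q + z)) = E2 (q' + MM a₁ a₂ z)) :
    ∃ C : ℝ, ∀ᶠ t in atTop, b t ≤ b' t + C := by
  have hg0 : g (E2 q) = E2 q' := by
    have h1 := hL 0 (by simp)
    have h2 := hL' 0 (by simp)
    have h3 := hG 0
    rw [add_zero, hr_zero, add_zero] at h1 h2
    rw [add_zero, MM_zero, add_zero] at h3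
    have h4 := hgG (E2 q)
    rw [h1, h3, h2] at h4
    exact h4
  obtain ⟨C, hC, hlip⟩ := lip g hg0
  have hc : Continuous (hr b) := hr_cont hb hε
  have hc' : Continuous (hr b') := hr_cont hb' hε
  have key : ∀ᶠ z in 𝓝 (0 : V2), ‖hr b' (MM a₁ a₂ z)‖ ≤ C * ‖hr b z‖ := by
    have e1 : ∀ᶠ z in 𝓝 (0 : V2), ‖z‖ < 1 / 16 := by
      have : ContinuousAt (fun z : V2 => ‖z‖) 0 := continuous_norm.continuousAt
      exact this.eventually_lt_const (by simp)
    have e2 : ∀ᶠ z in 𝓝 (0 : V2), ‖MM a₁ a₂ z‖ < 1 / 16 := by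
      have : ContinuousAt (fun z : V2 => ‖MM a₁ a₂ z‖) 0 := (MM_cont _ _).norm.continuousAt
      exact this.eventually_lt_const (by beta_reduce; rw [MM_zero]; simp)
    have e3 : ∀ᶠ z in 𝓝 (0 : V2), ‖hr b' (MM a₁ a₂ z)‖ < 1 / 4 := by
      have : ContinuousAt (fun z : V2 => ‖hr b' (MM a₁ a₂ z)‖) 0 :=
        (hc'.comp (MM_cont _ _)).norm.continuousAt
      exact this.eventually_lt_const (by beta_reduce; rw [MM_zero, hr_zero]; simp)
    have e4 : ∀ᶠ z in 𝓝 (0 : V2), C * ‖hr b z‖ < 1 / 4 := by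
      have : ContinuousAt (fun z : V2 => C * ‖hr b z‖) 0 :=
        (continuous_const.mul hc.norm).continuousAt
      exact this.eventually_lt_const (by beta_reduce; rw [hr_zero]; simp)
    have e5 : ∀ᶠ z in 𝓝 (0 : V2), ∃ u, g (E2 (q + hr b z)) = E2 (q' + u) ∧
        ‖u‖ ≤ C * ‖hr b z‖ := by
      have : Tendsto (hr b) (𝓝 0) (𝓝 0) := by
        have := hc.tendsto 0
        rwa [hr_zero] at this
      exact this.eventually hlip
    filter_upwards [e1, e2, e3, e4, e5] with z h1 h2 h3 h4 h5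
    obtain ⟨u, hu, hu2⟩ := h5
    have h6 : E2 (q' + u) = E2 (q' + hr b' (MM a₁ a₂ z)) := by
      rw [← hu, ← hL z h1, hgG, hG, hL' _ h2]
    obtain ⟨k, hk⟩ := (E2_eq_iff _ _).1 h6
    have h7 : ofZ k = u - hr b' (MM a₁ a₂ z) := by
      have : u = hr b' (MM a₁ a₂ z) + ofZ k := by
        rw [add_assoc] at hk
        exact add_left_cancel hk
      rw [this]; abel
    have h8 : k = 0 := norm_ofZ_lt (by
      rw [h7]
      refine (norm_sub_le _ _).trans_lt ?_
      linarith)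
    rw [h8, ofZ_zero] at h7
    have h9 : u = hr b' (MM a₁ a₂ z) := sub_eq_zero.1 h7.symm
    rw [← h9]; exact hu2
  -- the curve
  obtain ⟨m, hm⟩ : ∃ m : V2, m = MM a₁ a₂ (1, 0) := ⟨_, rfl⟩
  have hm0 : m ≠ 0 := by
    intro h0
    apply hne
    rw [hm] at h0
    have k1 := congrArg Prod.fst h0
    have k2 := congrArg Prod.snd h0
    simp only [MM, FE_apply, Prod.fst_add, Prod.snd_add, Prod.smul_fst, Prod.smul_snd,
      smul_eq_mul, mul_one, mul_zero, add_zero, zero_add, Prod.fst_zero, Prod.snd_zero] at k1 k2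
    have k3 : a₂ = 0 := by exact_mod_cast k2
    refine ⟨?_, k3⟩
    rw [k3] at k1
    simpa using k1
  have hx : Tendsto (fun t : ℝ => Real.exp (-(t + 20) / 2) • ((1, 0) : V2)) atTop (𝓝 0) := by
    have h1 : Tendsto (fun t : ℝ => Real.exp (-(t + 20) / 2)) atTop (𝓝 0) := by
      apply Real.tendsto_exp_atBot.comp
      have : (fun t : ℝ => -(t + 20) / 2) = fun t => -((t + 20) / 2) := by funext t; ring
      rw [this]
      apply tendsto_neg_atTop_atBot.comp
      exact (tendsto_atTop_add_const_right _ _ tendsto_id).atTop_div_const (by norm_num)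
    have h2 := h1.smul_const ((1, 0) : V2)
    rwa [zero_smul] at h2
  refine ⟨ε * |Real.log (en m)| + 2 * (Real.log C - Real.log ‖m‖), ?_⟩
  filter_upwards [hx.eventually key] with t ht
  obtain ⟨x, hxt⟩ : ∃ x, x = Real.exp (-(t + 20) / 2) := ⟨_, rfl⟩
  rw [← hxt] at ht
  have hx0 : 0 < x := by rw [hxt]; exact Real.exp_pos _
  rw [MM_smul, ← hm] at ht
  have hx2 : Real.log (x ^ 2) = -(t + 20) := by
    rw [hxt, Real.log_pow, Real.log_exp]; push_cast; ring
  have t1 : tt (x • ((1, 0) : V2)) = t := by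
    have : en (x • ((1, 0) : V2)) = x ^ 2 := by simp [en]
    rw [tt, this, hx2]; ring
  have t2 : tt (x • m) = t - Real.log (en m) := by
    rw [tt, en_smul, Real.log_mul (by positivity) (en_pos hm0).ne', hx2]; ring
  have n1 : ‖((1, 0) : V2)‖ = 1 := by simp [Prod.norm_def]
  rw [hr, hr, t1, t2, norm_smul, norm_smul, norm_smul, norm_smul, n1, mul_one,
    Real.norm_eq_abs, Real.norm_eq_abs, Real.norm_eq_abs, abs_of_pos hx0,
    abs_of_pos (Real.exp_pos _), abs_of_pos (Real.exp_pos _)] at ht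
  have hm1 : 0 < ‖m‖ := norm_pos_iff.2 hm0
  have h1 : Real.exp (-(b' (t - Real.log (en m))) / 2) * ‖m‖ ≤ C * Real.exp (-(b t) / 2) := by
    refine le_of_mul_le_mul_right ?_ hx0
    calc Real.exp (-(b' (t - Real.log (en m))) / 2) * ‖m‖ * x
        = Real.exp (-(b' (t - Real.log (en m))) / 2) * (x * ‖m‖) := by ring
      _ ≤ C * (Real.exp (-(b t) / 2) * x) := ht
      _ = _ := by ring
  have h2 := Real.log_le_log (by positivity) h1
  rw [Real.log_mul (Real.exp_pos _).ne' hm1.ne', Real.log_mul hC.ne' (Real.exp_pos _).ne',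
    Real.log_exp, Real.log_exp] at h2
  have h3 := hb'.lip (t - Real.log (en m)) t
  rw [sub_sub_cancel_left, abs_neg] at h3
  have h4 := le_abs_self (b' (t - Real.log (en m)) - b' t)
  linarith

theorem zero_slow {ε : ℝ} (hε : 0 ≤ ε) : Slow ε (fun _ => 0) := by
  refine ⟨contDiff_const, fun _ _ => rfl, fun t => ?_, fun t ht => ?_⟩
  · simp [hε]
  · simp only [deriv_const, abs_zero, mul_zero]; positivity

theorem hr_zero_fun (z : V2) : hr (fun _ => 0) z = z := by simp [hr]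

/-- With profiles of different unbounded strengths the centralizer is trivial. -/
theorem triv {ε : ℝ} {β γ β' γ' : ℝ → ℝ} (h : SP ε β γ) (h' : SP ε β' γ') (hε : ε ≤ 1 / 200)
    (hu : Tendsto β atTop atTop) (h2 : ∀ t, β' t = 2 * β t) : TrivialCentralizer (fP h h' hε) := by
  intro g hg
  have hε0 : 0 ≤ ε := (abs_nonneg _).trans (h.b.bd 0)
  have hright : ∀ X, HH β β' (HH γ γ' X) = X := HH_left h.symm h'.symm
  have hinj : ∀ X Y, HH β β' X = HH β β' Y → X = Y := by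
    intro X Y hXY
    rw [← HH_left h h' X, hXY, HH_left h h']
  obtain ⟨G, hG⟩ : ∃ G : T2 → T2, G = fun X => HH γ γ' (g (HH β β' X)) := ⟨_, rfl⟩
  obtain ⟨G', hG'⟩ : ∃ G' : T2 → T2, G' = fun X => HH γ γ' (g⁻¹ (HH β β' X)) := ⟨_, rfl⟩
  have hcH := HH_cont h h' hε
  have hcH' := HH_cont h.symm h'.symm hε
  have hgG : ∀ X, g (HH β β' X) = HH β β' (G X) := by
    intro X; rw [hG]; exact (hright _).symm
  have hGG' : ∀ X, G' (G X) = X := by
    intro X
    rw [hG']; beta_reduce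
    rw [← hgG, d1_self_inv, HH_left h h']
  have hG'G : ∀ X, G (G' X) = X := by
    intro X
    rw [hG, hG']; beta_reduce
    rw [hright, d1_inv_self, HH_left h h']
  have hgf : ∀ X, g (fP h h' hε X) = fP h h' hε (g X) := fun X => by
    rw [← d1_mul_apply, hg, d1_mul_apply]
  have hcomm : ∀ X, G (FT X) = FT (G X) := by
    intro X
    apply hinj
    rw [← hgG, ← fP_HH h h' hε, ← fP_HH h h' hε, ← hgG, hgf]
  obtain ⟨a, b, c, n, s, hs, hne, hab, hn⟩ := rigid G G'
    (by rw [hG]; exact hcH'.comp (g.contMDiff.continuous.comp hcH))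
    (by rw [hG']; exact hcH'.comp (g⁻¹.contMDiff.continuous.comp hcH)) hGG' hG'G hcomm
  have hloc : ∀ q q' : V2, G (E2 q) = E2 q' → ∀ z, G (E2 (q + z)) = E2 (q' + MM a b z) := by
    intro q q' hq z
    rw [hab, MM_addv]
    have e1 : MM a b q + MM a b z + c = (MM a b q + c) + MM a b z := by abel
    rw [e1, E2_add, ← hab, hq, ← E2_add]
  have hfix : ∀ q, E2 (FE q) = E2 q → G (E2 q) = E2 0 ∨ G (E2 q) = E2 pp ∨ G (E2 q) = E2 (-pp) := by
    intro q hq
    apply fixpts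
    rw [← hcomm, FT_E2, hq]
  have L0 : ∀ z, ‖z‖ < 1 / 16 → HH β β' (E2 (0 + z)) = E2 (0 + hr β z) := fun z hz =>
    (HH_near h h' hz).1
  have L1 : ∀ z, ‖z‖ < 1 / 16 → HH β β' (E2 (pp + z)) = E2 (pp + hr β' z) := fun z hz =>
    (HH_near h h' hz).2.1
  have L2 : ∀ z, ‖z‖ < 1 / 16 → HH β β' (E2 (-pp + z)) = E2 (-pp + hr (fun _ => 0) z) := by
    intro z hz
    rw [hr_zero_fun]
    exact (HH_near h h' hz).2.2
  have hcontra : ∀ C : ℝ, ¬ ∀ᶠ t in atTop, β t ≤ C := by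
    intro C hC
    obtain ⟨t, h1, h2⟩ := (hC.and (hu.eventually_gt_atTop C)).exists
    linarith
  have hz := zero_slow hε0
  -- the images of the fixed points
  have hpp : G (E2 pp) = E2 pp := by
    rcases hfix pp fix1 with h1 | h1 | h1
    · exfalso
      obtain ⟨C, hC⟩ := sing h'.b h.b (by linarith) L1 L0 g hgG a b hne (hloc _ _ h1)
      refine hcontra C ?_
      filter_upwards [hC] with t ht
      rw [h2] at ht
      linarith
    · exact h1
    · exfalso
      obtain ⟨C, hC⟩ := sing h'.b hz (by linarith) L1 L2 g hgG a b hne (hloc _ _ h1)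
      refine hcontra (C / 2) ?_
      filter_upwards [hC] with t ht
      rw [h2] at ht
      linarith
  have h00 : G (E2 0) = E2 0 := by
    rcases hfix 0 fix0 with h1 | h1 | h1
    · exact h1
    · exfalso
      have e1 : E2 0 = E2 pp := by
        have e2 := congrArg G' (h1.trans hpp.symm)
        rwa [hGG', hGG'] at e2
      exact sep01.ne e1
    · exfalso
      obtain ⟨C, hC⟩ := sing h.b hz (by linarith) L0 L2 g hgG a b hne (hloc _ _ h1)
      refine hcontra C ?_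
      filter_upwards [hC] with t ht
      linarith
  -- conclusion
  have hGn : ∀ z, G (E2 z) = (FT ^ n) (E2 (s • z)) := by
    intro z
    rw [← hn]
    have := hloc 0 0 h00 z
    rwa [zero_add, zero_add] at this
  have hs1 : s = 1 := by
    rcases hs with hs | hs
    · exact hs
    · exfalso
      have e1 := hGn pp
      rw [hpp, hs, neg_one_smul, fix_zpow FT (by rw [FT_E2, fix2])] at e1
      exact sep12.ne e1.symm
  refine ⟨n, ?_⟩
  apply Diffeomorph.ext
  intro X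
  obtain ⟨z, hz⟩ := E2_surj (HH γ γ' X)
  rw [← hright X, hgG, ← hz, hGn, hs1, one_smul, fP_zpow]

end Pool.Agent.H365R5
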