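import Mathlib
import Pool.Agent.H365R5.Sin

set_option autoImplicit false

open scoped Manifold ContDiff Topology
open Set Filter Bundle

noncomputable section

namespace Pool.Agent.H365R5

open Pool.Agent.H365R3 Pool.Agent.H365R4

/-- The base strength. -/
def e0 : ℝ := 1 / 1000000

/-- The constant of the estimates. -/
def e1 : ℝ := 4 * (2 * e0)

theorem e0_pos : 0 < e0 := by unfold e0; norm_num

theorem e1_le : e1 ≤ 1 / 200 := by unfold e1 e0; norm_num

theorem e1_le' : e1 ≤ 1 / 30000 := by unfold e1 e0; norm_num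

theorem sl0 : Slow (2 * e0) (bb e0) := (bb_slow e0_pos.le).mono (by linarith [e0_pos])

theorem sl1 : Slow (2 * e0) (bb (2 * e0)) := bb_slow (by linarith [e0_pos])

theorem sln0 (n : ℕ) : Slow (2 * e0) (bn e0 ((n : ℝ) + 35)) :=
  (bn_slow e0_pos.le (by positivity)).mono (by linarith [e0_pos])

theorem sln1 (n : ℕ) : Slow (2 * e0) (bn (2 * e0) ((n : ℝ) + 35)) :=
  bn_slow (by linarith [e0_pos]) (by positivity)

theorem four_le : 2 * e0 ≤ 1 / 4 := by unfold e0; norm_num

/-- The inverse profiles. -/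
def g0 : ℝ → ℝ := Classical.choose (exists_SP four_le sl0)

/-- The inverse profiles. -/
def g1 : ℝ → ℝ := Classical.choose (exists_SP four_le sl1)

/-- The inverse profiles. -/
def gn0 (n : ℕ) : ℝ → ℝ := Classical.choose (exists_SP four_le (sln0 n))

/-- The inverse profiles. -/
def gn1 (n : ℕ) : ℝ → ℝ := Classical.choose (exists_SP four_le (sln1 n))

theorem sp0 : SP e1 (bb e0) g0 := Classical.choose_spec (exists_SP four_le sl0)

theorem sp1 : SP e1 (bb (2 * e0)) g1 := Classical.choose_spec (exists_SP four_le sl1)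

theorem spn0 (n : ℕ) : SP e1 (bn e0 ((n : ℝ) + 35)) (gn0 n) :=
  Classical.choose_spec (exists_SP four_le (sln0 n))

theorem spn1 (n : ℕ) : SP e1 (bn (2 * e0) ((n : ℝ) + 35)) (gn1 n) :=
  Classical.choose_spec (exists_SP four_le (sln1 n))

/-- The diffeomorphism with trivial centralizer. -/
def ff : T2 ≃ₘ^1⟮I2, I2⟯ T2 := fP sp0 sp1 e1_le

/-- The diffeomorphisms with nontrivial centralizer. -/
def fn (n : ℕ) : T2 ≃ₘ^1⟮I2, I2⟯ T2 := fP (spn0 n) (spn1 n) e1_le

theorem ff_anosov : IsAnosov ff := fP_anosov sp0 sp1 e1_le e1_le'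

theorem fn_anosov (n : ℕ) : IsAnosov (fn n) := fP_anosov (spn0 n) (spn1 n) e1_le e1_le'

theorem ff_trivial : TrivialCentralizer ff :=
  triv sp0 sp1 e1_le (bb_unbounded e0_pos) fun t => by unfold bb; ring

theorem fn_nontrivial (n : ℕ) : ¬ TrivialCentralizer (fn n) :=
  nontrivial (spn0 n) (spn1 n) e1_le (s := (n : ℝ) + 35 + 2) (c := bb e0 ((n : ℝ) + 35 + 1))
    (by positivity) (fun _ ht => bn_high _ _ ht) (s' := (n : ℝ) + 35 + 2)
    (c' := bb (2 * e0) ((n : ℝ) + 35 + 1)) (by positivity) (fun _ ht => bn_high _ _ ht)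

theorem fn_tendsto : Tendsto fn atTop (𝓝 ff) :=
  fP_tendsto sp0 sp1 (bb_nonneg e0_pos.le) (bb_nonneg (by linarith [e0_pos])) e1_le
    (fun n => bn e0 ((n : ℝ) + 35)) gn0 (fun n => bn (2 * e0) ((n : ℝ) + 35)) gn1 spn0 spn1
    (fun _ _ ht => bn_low _ _ ht) (fun _ _ ht => bn_low _ _ ht)

end Pool.Agent.H365R5
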